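import Mathlib.Algebra.Order.Group.MinMax
import Mathlib.Topology.Sheaves.Presheaf
import Mathlib.Tactic.Monotonicity.Lemmas
import Mathlib.Data.Int.ConditionallyCompleteOrder
import Mathlib.Data.Int.Star
import Mathlib.Algebra.Order.Ring.Star
import Mathlib.Tactic.Bound
import Mathlib.RingTheory.WittVector.IsPoly
import Mathlib.Tactic.Polynomial.Basic
import Mathlib.Tactic.ReduceModChar

-- ======== part 0: formerly Pool.Agent.MP_d221f7_co.Abs
section MrgPart0

/-!
The toppling game on the complete graph as a game on cylindric diagrams: the abstract game and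
the two filling lemmas.
-/

set_option autoImplicit false

namespace Pool.Agent.MP_d221f7_co

/-- cylindric diagrams -/
structure Ok (n : ℕ) (y : ℤ → ℤ) : Prop where
  anti : ∀ j, y j ≤ y (j - 1)
  per : ∀ j, y (j + n) = y j - n

def step (n : ℕ) (j : ℤ) (y : ℤ → ℤ) : ℤ → ℤ :=
  fun i => if (n : ℤ) ∣ i - j then y i + 1 else y i

def Legal (j : ℤ) (y : ℤ → ℤ) : Prop := y j < y (j - 1)

def Fin' (n : ℕ) (y : ℤ → ℤ) : Prop := ∀ j, (n : ℤ) - 1 ≤ y j + j

def sz (n : ℕ) (y : ℤ → ℤ) : ℤ := ∑ j ∈ Finset.range n, y j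

/-- Min can force the end within `k` moves (`true`: Max is to move). -/
def F (n : ℕ) : ℕ → Bool → (ℤ → ℤ) → Prop
  | 0, _, y => Fin' n y
  | k + 1, true, y => Fin' n y ∨ ∀ j, Legal j y → F n k false (step n j y)
  | k + 1, false, y => Fin' n y ∨ ∃ j, Legal j y ∧ F n k true (step n j y)

variable {n : ℕ} {y z : ℤ → ℤ}

theorem Ok.antitone (h : Ok n y) : Antitone y :=
  antitone_int_of_succ_le fun j => by simpa using h.anti (j + 1)

theorem Ok.per_mul (h : Ok n y) (j t : ℤ) : y (j + n * t) = y j - n * t := by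
  induction t using Int.induction_on with
  | zero => simp
  | succ t ih =>
    have := h.per (j + n * t)
    rw [show j + (n : ℤ) * (t + 1) = j + n * t + n by ring, this, ih]; ring
  | pred t ih =>
    have := h.per (j + n * (-(t : ℤ) - 1))
    rw [show j + (n : ℤ) * (-(t : ℤ) - 1) + n = j + n * (-(t : ℤ)) by ring, ih] at this
    linarith

theorem Ok.lt_iff (hy : Ok n y) (hz : Ok n z) {i j : ℤ} (h : (n : ℤ) ∣ i - j) :
    y i - z i = y j - z j := by
  obtain ⟨t, ht⟩ := h
  have : i = j + n * t := by linarith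
  rw [this, hy.per_mul, hz.per_mul]; ring

theorem Ok.shift (h : Ok n y) : Ok n fun j => y (j - 1) :=
  ⟨fun j => h.anti (j - 1), fun j => by
    have := h.per (j - 1)
    rwa [show j - 1 + n = j + n - 1 by ring] at this⟩

theorem Ok.add (h : Ok n y) (c : ℤ) : Ok n fun j => y j + c :=
  ⟨fun j => by have := h.anti j; linarith, fun j => by have := h.per j; linarith⟩

theorem Ok.sup (hy : Ok n y) (hz : Ok n z) : Ok n (y ⊔ z) :=
  ⟨fun j => max_le_max (hy.anti j) (hz.anti j), fun j => by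
    show max _ _ = max _ _ - _
    rw [hy.per, hz.per, max_sub_sub_right]⟩

theorem le_step (j : ℤ) (y : ℤ → ℤ) : y ≤ step n j y := fun i => by
  unfold step; split_ifs <;> simp

theorem Ok.step (h : Ok n y) {j : ℤ} (hl : Legal j y) : Ok n (step n j y) := by
  refine ⟨fun i => ?_, fun i => ?_⟩
  · have h1 := le_step (n := n) j y (i - 1)
    have h2 := h.anti i
    by_cases hi : (n : ℤ) ∣ i - j
    · have h3 := h.lt_iff h.shift hi
      have h4 : Pool.Agent.MP_d221f7_co.step n j y i = y i + 1 := if_pos hi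
      unfold Legal at hl
      linarith
    · have h4 : Pool.Agent.MP_d221f7_co.step n j y i = y i := if_neg hi
      linarith
  · have : ((n : ℤ) ∣ i + n - j) ↔ ((n : ℤ) ∣ i - j) := by
      rw [show i + n - j = i - j + n by ring]; exact dvd_add_self_right
    unfold Pool.Agent.MP_d221f7_co.step
    simp only [this, h.per]
    split_ifs <;> ring

theorem step_le (hy : Ok n y) (hz : Ok n z) (hle : y ≤ z) {j : ℤ} (hj : y j < z j) :
    step n j y ≤ z := fun i => by
  unfold step
  split_ifs with hi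
  · have := hy.lt_iff hz hi; linarith
  · exact hle i

theorem sz_step (hn : 0 < n) (j : ℤ) (y : ℤ → ℤ) : sz n (step n j y) = sz n y + 1 := by
  have hn' : (0 : ℤ) < n := by exact_mod_cast hn
  have h0 := Int.emod_nonneg j hn'.ne'
  have h1 := Int.emod_lt_of_pos j hn'
  have key : ∀ i ∈ Finset.range n, step n j y i = y i + if i = (j % n).toNat then 1 else 0 := by
    intro i hi
    have hi' : (i : ℤ) < n := by exact_mod_cast Finset.mem_range.1 hi
    have : ((n : ℤ) ∣ (i : ℤ) - j) ↔ i = (j % n).toNat := by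
      rw [← Int.emod_emod_of_dvd j (dvd_refl (n : ℤ)), ← Int.modEq_iff_dvd, Int.ModEq,
        Int.emod_eq_of_lt (by positivity : (0 : ℤ) ≤ i) hi']
      rw [Int.emod_emod_of_dvd j (dvd_refl (n : ℤ))]
      omega
    unfold step
    simp only [this]
    split_ifs <;> simp
  unfold sz
  rw [Finset.sum_congr rfl key, Finset.sum_add_distrib, Finset.sum_ite_eq' (Finset.range n)]
  rw [if_pos (Finset.mem_range.2 (by omega))]

theorem sz_mono (h : y ≤ z) : sz n y ≤ sz n z := Finset.sum_le_sum fun j _ => h j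

theorem exists_lt_of_sz (h : sz n y < sz n z) : ∃ j, y j < z j := by
  by_contra hc
  push Not at hc
  exact absurd (sz_mono (n := n) (y := z) (z := y) hc) (not_le.2 h)

theorem le_of_range (hn : 0 < n) (hy : Ok n y) (hz : Ok n z)
    (h : ∀ j : ℕ, j < n → y j ≤ z j) : y ≤ z := fun i => by
  have hn' : (0 : ℤ) < n := by exact_mod_cast hn
  have h0 := Int.emod_nonneg i hn'.ne'
  have h1 := Int.emod_lt_of_pos i hn'
  have h2 := h (i % n).toNat (by omega)
  rw [Int.toNat_of_nonneg h0] at h2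
  have h3 := hy.lt_iff hz (i := i) (j := i % n) (Int.dvd_self_sub_emod)
  linarith

theorem le_of_sz (hn : 0 < n) (hy : Ok n y) (hz : Ok n z) (hle : y ≤ z)
    (h : sz n z ≤ sz n y) : z ≤ y := by
  refine le_of_range hn hz hy fun j hj => ?_
  by_contra hc
  have : sz n y < sz n z :=
    Finset.sum_lt_sum (fun i _ => hle i) ⟨j, Finset.mem_range.2 hj, not_le.1 hc⟩
  linarith

theorem exists_legal_lt (hn : 0 < n) (hy : Ok n y) (hz : Ok n z) {j₀ : ℤ} (h : y j₀ < z j₀) :
    ∃ j, Legal j y ∧ y j < z j := by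
  by_contra hc
  push Not at hc
  have key : ∀ t : ℕ, y (j₀ - t) = y j₀ ∧ y (j₀ - t) < z (j₀ - t) := by
    intro t
    induction t with
    | zero => simpa using h
    | succ t ih =>
      have h1 : ¬ Legal (j₀ - t) y := fun hl => absurd (hc _ hl) (not_le.2 ih.2)
      unfold Legal at h1
      have h2 := hy.anti (j₀ - t)
      have h3 := hz.anti (j₀ - t)
      rw [show j₀ - ((t + 1 : ℕ) : ℤ) = j₀ - t - 1 by push_cast; ring]
      constructor <;> linarith [ih.1, ih.2, not_lt.1 h1]
  have h1 := (key n).1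
  have h2 := hy.per (j₀ - n)
  rw [sub_add_cancel] at h2
  have hn' : (0 : ℤ) < n := by exact_mod_cast hn
  linarith

theorem exists_legal (hn : 0 < n) (hy : Ok n y) : ∃ j, Legal j y :=
  let ⟨j, hj, _⟩ := exists_legal_lt hn hy (hy.add 1) (j₀ := 0) (by simp)
  ⟨j, hj⟩

theorem Fin'.mono (h : Fin' n y) (hle : y ≤ z) : Fin' n z := fun j => by
  have := h j; have := hle j; linarith

theorem F_of_fin (h : Fin' n y) : ∀ k x, F n k x y
  | 0, _ => h
  | _ + 1, true => Or.inl h
  | _ + 1, false => Or.inl h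

theorem F.succ : ∀ {k : ℕ} {x : Bool} {y : ℤ → ℤ}, F n k x y → F n (k + 1) x y
  | 0, _, _, h => F_of_fin h _ _
  | _ + 1, true, _, h => h.imp id fun h j hj => F.succ (h j hj)
  | _ + 1, false, _, h => h.imp id fun ⟨j, hj, h⟩ => ⟨j, hj, F.succ h⟩

theorem F.mono {k l : ℕ} {x : Bool} (h : F n k x y) (hkl : k ≤ l) : F n l x y := by
  induction hkl with
  | refl => exact h
  | step _ ih => exact ih.succ

/-- number of cells of `z` missing in `y` -/
def df (n : ℕ) (z y : ℤ → ℤ) : ℤ := sz n (y ⊔ z) - sz n y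

theorem df_step (j : ℤ) (z y : ℤ → ℤ) : df n z (step n j y) ≤ df n z y := by
  unfold df sz
  rw [← Finset.sum_sub_distrib, ← Finset.sum_sub_distrib]
  refine Finset.sum_le_sum fun i _ => ?_
  have : y i ≤ step n j y i := le_step (n := n) j y i
  show max _ _ - _ ≤ max _ _ - _
  omega

theorem df_zero (hn : 0 < n) (hy : Ok n y) (hz : Ok n z) (h : df n z y ≤ 0) : z ≤ y :=
  le_sup_right.trans (le_of_sz hn hy (hy.sup hz) le_sup_left (by unfold df at h; linarith))

theorem pick (hn : 0 < n) (hy : Ok n y) (hz : Ok n z) {r : ℕ} (h : df n z y ≤ (r + 1 : ℕ)) :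
    ∃ j, Legal j y ∧ df n z (step n j y) ≤ r := by
  by_cases h0 : df n z y ≤ 0
  · obtain ⟨j, hj⟩ := exists_legal hn hy
    exact ⟨j, hj, (df_step j z y).trans (h0.trans (by positivity))⟩
  · have h1 : sz n y < sz n (y ⊔ z) := by unfold df at h0; linarith
    obtain ⟨j₀, hj₀⟩ := exists_lt_of_sz h1
    obtain ⟨j, hj, hlt⟩ := exists_legal_lt hn hy (hy.sup hz) hj₀
    refine ⟨j, hj, ?_⟩
    have h2 : step n j y ⊔ z ≤ y ⊔ z :=
      sup_le (step_le hy (hy.sup hz) le_sup_left hlt) le_sup_right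
    have h3 := sz_mono (n := n) h2
    unfold df at h ⊢
    rw [sz_step hn]
    push_cast at h
    linarith

theorem fillMin (hn : 0 < n) (hz : Ok n z) (X : ℕ) : ∀ (r : ℕ) (y : ℤ → ℤ), Ok n y →
    df n z y ≤ r →
    (∀ w, Ok n w → y ≤ w → z ≤ w → sz n w = sz n y + 2 * r → F n X false w) →
    F n (X + 2 * r) false y := by
  intro r
  induction r with
  | zero => exact fun y hy h H => H y hy le_rfl (df_zero hn hy hz (by simpa using h)) (by simp)
  | succ r ih =>
    intro y hy h H
    obtain ⟨j, hj, hd⟩ := pick hn hy hz h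
    refine Or.inr ⟨j, hj, Or.inr fun i hi => ?_⟩
    refine ih _ ((hy.step hj).step hi) ((df_step i z _).trans hd) fun w hw h1 h2 h3 => ?_
    refine H w hw (((le_step j y).trans (le_step i _)).trans h1) h2 ?_
    rw [h3, sz_step hn, sz_step hn]; push_cast; ring

theorem fillMax (hn : 0 < n) (hz : Ok n z) (X : ℕ) : ∀ (r : ℕ) (y : ℤ → ℤ), Ok n y →
    df n z y ≤ r →
    (∀ w, Ok n w → y ≤ w → z ≤ w → sz n w = sz n y + 2 * r → ¬ F n X true w) →
    (∀ w, Ok n w → y ≤ w → sz n w ≤ sz n y + 2 * r → ¬ Fin' n w) →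
    ¬ F n (X + 2 * r) true y := by
  intro r
  induction r with
  | zero =>
    exact fun y hy h H _ => H y hy le_rfl (df_zero hn hy hz (by simpa using h)) (by simp)
  | succ r ih =>
    intro y hy h H T hF
    obtain ⟨j, hj, hd⟩ := pick hn hy hz h
    have hr : (0 : ℤ) ≤ r := by positivity
    rcases hF with hF | hF
    · exact T y hy le_rfl (by push_cast; linarith) hF
    rcases hF j hj with hF | ⟨i, hi, hF⟩
    · exact T _ (hy.step hj) (le_step j y) (by rw [sz_step hn]; push_cast; linarith) hF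
    have hle : y ≤ step n i (step n j y) := (le_step j y).trans (le_step i _)
    refine ih _ ((hy.step hj).step hi) ((df_step i z _).trans hd) (fun w hw h1 h2 h3 => ?_)
      (fun w hw h1 h3 => ?_) hF
    · refine H w hw (hle.trans h1) h2 ?_
      rw [h3, sz_step hn, sz_step hn]; push_cast; ring
    · refine T w hw (hle.trans h1) ?_
      rw [sz_step hn, sz_step hn] at h3; push_cast; linarith

/-- A position close to a final one ends soon. -/
theorem short (hn : 0 < n) (hy : Ok n y) (hz : Ok n z) (hT : Fin' n z) {r : ℕ}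
    (h : df n z y ≤ r) (x : Bool) : F n (2 * r + 1) x y := by
  have key : ∀ w, Ok n w → df n z w ≤ r → F n (2 * r) false w := fun w hw hd => by
    have := fillMin hn hz 0 r w hw hd fun u _ _ h2 _ => hT.mono h2
    rwa [zero_add] at this
  cases x
  · exact (key y hy h).succ
  · exact Or.inr fun j hj => key _ (hy.step hj) ((df_step j z y).trans h)

end Pool.Agent.MP_d221f7_co

end MrgPart0

-- ======== part 1: formerly Pool.Agent.MP_d221f7_co.Sim
section MrgPart1

/-!
Blocks: the game of size `k n` simulates the game of size `n`.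
-/

set_option autoImplicit false

namespace Pool.Agent.MP_d221f7_co

/-- the full blocks -/
def rnd (k : ℕ) (y : ℤ → ℤ) : ℤ → ℤ := fun a => y (k * a + k - 1) / k

/-- blow-up -/
def ex (k : ℕ) (J : ℤ → ℤ) : ℤ → ℤ := fun j => k * J (j / k)

def top (n : ℕ) : ℤ → ℤ := fun j => n - 1 - j

/-- the initial position -/
def y0 (n : ℕ) : ℤ → ℤ := fun j => n * ((-j - 1) / n) + n

variable {k n : ℕ} {y J : ℤ → ℤ}

theorem ok_top : Ok n (top n) :=
  ⟨fun j => by unfold top; linarith, fun j => by unfold top; ring⟩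

theorem fin_top : Fin' n (top n) := fun j => by unfold top; linarith

theorem ok_rnd (hk : 0 < k) (hy : Ok (k * n) y) : Ok n (rnd k y) := by
  have hk' : (0 : ℤ) < k := by exact_mod_cast hk
  refine ⟨fun a => Int.ediv_le_ediv hk' (hy.antitone (by nlinarith)), fun a => ?_⟩
  unfold rnd
  have := hy.per (k * a + k - 1)
  push_cast at this
  rw [show (k : ℤ) * (a + n) + k - 1 = k * a + k - 1 + k * n by ring, this,
    show y (k * a + k - 1) - (k : ℤ) * n = y (k * a + k - 1) + k * (-n) by ring,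
    Int.add_mul_ediv_left _ _ hk'.ne']
  ring

theorem ok_ex (hk : 0 < k) (hJ : Ok n J) : Ok (k * n) (ex k J) := by
  have hk' : (0 : ℤ) < k := by exact_mod_cast hk
  refine ⟨fun j => mul_le_mul_of_nonneg_left
    (hJ.antitone (Int.ediv_le_ediv hk' (by linarith))) hk'.le, fun j => ?_⟩
  unfold ex
  push_cast
  rw [Int.add_mul_ediv_left _ _ hk'.ne', hJ.per]
  ring

theorem div_bounds (hk : 0 < k) (j : ℤ) : k * (j / k) ≤ j ∧ j ≤ k * (j / k) + k - 1 := by
  have hk' : (0 : ℤ) < k := by exact_mod_cast hk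
  have h0 := Int.emod_nonneg j hk'.ne'
  have h1 := Int.emod_lt_of_pos j hk'
  have h2 := Int.mul_ediv_add_emod j k
  constructor <;> linarith

theorem ex_le (hk : 0 < k) (hy : Ok (k * n) y) (h : J ≤ rnd k y) : ex k J ≤ y := fun j => by
  have hk' : (0 : ℤ) < k := by exact_mod_cast hk
  have h1 : (k : ℤ) * J (j / k) ≤ k * rnd k y (j / k) := mul_le_mul_of_nonneg_left (h _) hk'.le
  have h2 := (div_bounds hk (y (k * (j / k) + k - 1))).1
  have h3 := hy.antitone (div_bounds hk j).2
  exact h1.trans (h2.trans h3)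

theorem le_rnd (hk : 0 < k) (h : ex k J ≤ y) : J ≤ rnd k y := fun a => by
  have hk' : (0 : ℤ) < k := by exact_mod_cast hk
  have h1 := h (k * a + k - 1)
  have h2 : (k * a + k - 1 : ℤ) / k = a := by
    rw [show (k * a + k - 1 : ℤ) = (k - 1) + k * a by ring, Int.add_mul_ediv_left _ _ hk'.ne',
      Int.ediv_eq_zero_of_lt (by linarith) (by linarith), zero_add]
  unfold ex at h1
  rw [h2] at h1
  exact Int.le_ediv_of_mul_le hk' (by linarith)

theorem sz_ex (hk : 0 < k) (J : ℤ → ℤ) (n : ℕ) : sz (k * n) (ex k J) = k ^ 2 * sz n J := by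
  have hk' : (0 : ℤ) < k := by exact_mod_cast hk
  unfold sz
  induction n with
  | zero => simp
  | succ n ih =>
    rw [Nat.mul_succ, Finset.sum_range_add, ih, Finset.sum_range_succ]
    have : ∀ i ∈ Finset.range k, ex k J ((k * n + i : ℕ) : ℤ) = k * J n := by
      intro i hi
      have hi' : (i : ℤ) < k := by exact_mod_cast Finset.mem_range.1 hi
      unfold ex
      push_cast
      rw [add_comm, Int.add_mul_ediv_left _ _ hk'.ne', Int.ediv_eq_zero_of_lt (by positivity) hi',
        zero_add]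
    rw [Finset.sum_congr rfl this, Finset.sum_const, Finset.card_range]
    simp only [nsmul_eq_mul]
    ring

theorem sz_shift (hJ : Ok n J) : sz n (fun a => J (a - 1) + 1) = sz n J + 2 * n := by
  have h1 := Finset.sum_range_succ (fun a : ℕ => J ((a : ℤ) - 1)) n
  have h2 := Finset.sum_range_succ' (fun a : ℕ => J ((a : ℤ) - 1)) n
  have h3 := hJ.per (-1)
  unfold sz
  rw [Finset.sum_add_distrib]
  simp only [Nat.cast_add, Nat.cast_one, add_sub_cancel_right, Nat.cast_zero, zero_sub,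
    Finset.sum_const, Finset.card_range, nsmul_eq_mul, mul_one] at h2 ⊢
  rw [show (-1 : ℤ) + n = n - 1 by ring] at h3
  linarith

theorem sz_le_rnd (hk : 0 < k) (hy : Ok (k * n) y) :
    sz (k * n) y ≤ k ^ 2 * (sz n (rnd k y) + 2 * n) := by
  rw [← sz_shift (ok_rnd hk hy), ← sz_ex hk]
  refine sz_mono fun j => ?_
  have h1 := (div_bounds hk j).1
  have h2 := hy.antitone (show k * (j / k - 1) + k - 1 ≤ j by linarith)
  have h3 := (div_bounds hk (y (k * (j / k - 1) + k - 1))).2
  show y j ≤ k * (y (k * (j / k - 1) + k - 1) / k + 1)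
  linarith

theorem fin_rnd (hk : 0 < k) (h : Fin' (k * n) y) : Fin' n (rnd k y) := fun a => by
  have hk' : (0 : ℤ) < k := by exact_mod_cast hk
  have h1 := h (k * a + k - 1)
  push_cast at h1
  have : (n : ℤ) - 1 - a ≤ rnd k y a := Int.le_ediv_of_mul_le hk' (by linarith)
  linarith

theorem df_le_of (z y d : ℤ → ℤ) (N : ℕ) (h0 : ∀ j, 0 ≤ d j) (h : ∀ j, z j ≤ y j + d j) :
    df N z y ≤ sz N d := by
  unfold df sz
  rw [← Finset.sum_sub_distrib]
  refine Finset.sum_le_sum fun i _ => ?_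
  have := h0 i; have := h i
  show max _ _ - _ ≤ _
  omega

theorem df_of_le (N : ℕ) {z y : ℤ → ℤ} (h : y ≤ z) : df N z y = sz N z - sz N y := by
  unfold df; rw [sup_eq_right.2 h]

theorem df_self (N : ℕ) (y : ℤ → ℤ) : df N y y = 0 := by
  rw [df_of_le N le_rfl, sub_self]

theorem df_block (hk : 0 < k) (hn : 0 < n) (h : ex k J ≤ y) (a : ℤ) :
    df (k * n) (ex k (step n a J)) y ≤ (k ^ 2 : ℕ) := by
  have hk' : (0 : ℤ) ≤ k := by positivity
  have h1 := df_le_of (ex k (step n a J)) y (fun j => ex k (step n a J) j - ex k J j) (k * n)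
    (fun j => sub_nonneg.2 (mul_le_mul_of_nonneg_left (le_step a J _) hk'))
    (fun j => by have : ex k J j ≤ y j := h j; linarith)
  have h2 : sz (k * n) (fun j => ex k (step n a J) j - ex k J j) =
      sz (k * n) (ex k (step n a J)) - sz (k * n) (ex k J) := Finset.sum_sub_distrib ..
  rw [h2, sz_ex hk, sz_ex hk, sz_step hn] at h1
  push_cast
  linarith

/-- After a final blocked position the game ends within `2 n k²` moves. -/
theorem finish (hk : 0 < k) (hn : 0 < n) (hy : Ok (k * n) y) (h : ex k J ≤ y) (hT : Fin' n J) :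
    F (k * n) (2 * (n * k ^ 2)) false y := by
  have hk' : (0 : ℤ) ≤ k := by positivity
  have h1 := df_le_of (top (k * n)) y (fun _ => k) (k * n) (fun _ => hk') fun j => by
    have h2 : (k : ℤ) * J (j / k) ≤ y j := h j
    have h3 := mul_le_mul_of_nonneg_left (hT (j / k)) hk'
    have h4 := (div_bounds hk j).1
    unfold top; push_cast; nlinarith
  have h5 : sz (k * n) (fun _ => (k : ℤ)) = (n * k ^ 2 : ℕ) := by
    simp only [sz, Finset.sum_const, Finset.card_range, nsmul_eq_mul]; push_cast; ring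
  have := fillMin (Nat.mul_pos hk hn) ok_top 0 (n * k ^ 2) y hy (h5 ▸ h1)
    fun u _ _ h2 _ => fin_top.mono h2
  rwa [zero_add] at this

/-- a full block that the small game has not used yet -/
theorem queue (hk : 0 < k) (hn : 0 < n) (hy : Ok (k * n) y) (hJ : Ok n J) (h : ex k J ≤ y)
    (hs : (k : ℤ) ^ 2 * (sz n J + 1 + 2 * n) ≤ sz (k * n) y) :
    ∃ b, Legal b J ∧ ex k (step n b J) ≤ y := by
  have hK : (0 : ℤ) < (k : ℤ) ^ 2 := by positivity
  have h1 := le_of_mul_le_mul_left (hs.trans (sz_le_rnd hk hy)) hK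
  obtain ⟨b₀, hb₀⟩ := exists_lt_of_sz (n := n) (y := J) (z := rnd k y) (by linarith)
  obtain ⟨b, hb, hlt⟩ := exists_legal_lt hn hJ (ok_rnd hk hy) hb₀
  exact ⟨b, hb, ex_le hk hy (step_le hJ (ok_rnd hk hy) (le_rnd hk h) hlt)⟩

theorem ub (hk : 0 < k) (hn : 0 < n) : ∀ (m : ℕ) (J y : ℤ → ℤ), Ok n J → Ok (k * n) y →
    ex k J ≤ y → (k : ℤ) ^ 2 * (sz n J + 2 * n) ≤ sz (k * n) y → F n m false J →
    F (k * n) (k ^ 2 * (m + 1) + 2 * (n * k ^ 2)) false y := by
  intro m
  induction m using Nat.strong_induction_on with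
  | _ m ih =>
    intro J y hJ hy h hs hF
    by_cases hT : Fin' n J
    · exact (finish hk hn hy h hT).mono (Nat.le_add_left _ _)
    obtain _ | m := m
    · exact absurd hF hT
    obtain ⟨a, ha, hF⟩ := hF.resolve_left hT
    have hJ1 := hJ.step ha
    have key := fun X => fillMin (Nat.mul_pos hk hn) (ok_ex hk hJ1) X (k ^ 2) y hy
      (df_block hk hn h a)
    by_cases hT1 : Fin' n (step n a J)
    · refine (key _ fun w hw _ h2 _ => finish hk hn hw h2 hT1).mono ?_
      nlinarith [Nat.zero_le (k ^ 2 * m)]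
    obtain _ | m := m
    · exact absurd hF hT1
    have hF := hF.resolve_left hT1
    refine (key (k ^ 2 * (m + 1) + 2 * (n * k ^ 2)) fun w hw _ h2 h3 => ?_).mono
      (le_of_eq (by ring))
    push_cast at h3
    obtain ⟨b, hb, hle⟩ := queue hk hn hw hJ1 h2 (by rw [sz_step hn]; nlinarith [sq_nonneg (k : ℤ)])
    refine ih m (by omega) _ w (hJ1.step hb) hw hle ?_ (hF b hb)
    rw [sz_step hn, sz_step hn]; linarith

/-- If the real game is over, the small one is almost over. -/
theorem near (hk : 0 < k) (hn : 0 < n) (hy : Ok (k * n) y) (hJ : Ok n J) (h : ex k J ≤ y)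
    {e : ℕ} (hs : sz (k * n) y ≤ (k : ℤ) ^ 2 * (sz n J + e)) (hT : Fin' (k * n) y) (x : Bool) :
    F n (2 * e + 1) x J := by
  have hK : (0 : ℤ) < (k : ℤ) ^ 2 := by positivity
  refine short hn hJ (ok_rnd hk hy) (fin_rnd hk hT) ?_ x
  rw [df_of_le n (le_rnd hk h)]
  have h1 := sz_mono (n := k * n) (ex_le hk hy le_rfl)
  rw [sz_ex hk] at h1
  have := le_of_mul_le_mul_left (h1.trans hs) hK
  linarith

theorem lb (hk : 0 < k) (hn : 0 < n) (e : ℕ) : ∀ (i : ℕ) (J y : ℤ → ℤ), Ok n J → Ok (k * n) y →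
    ex k J ≤ y → (k : ℤ) ^ 2 * (sz n J + 2 * n) ≤ sz (k * n) y →
    sz (k * n) y ≤ (k : ℤ) ^ 2 * (sz n J + e) → ¬ F n (2 * (e + 2) + 1 + 2 * i) true J →
    ¬ F (k * n) (2 * (k ^ 2 * i)) true y := by
  intro i
  induction i with
  | zero =>
    intro J y hJ hy h _ hs hF hT
    exact hF ((near hk hn hy hJ h hs (by simpa [F] using hT) true).mono (by omega))
  | succ i ih =>
    intro J y hJ hy h hs hs' hF
    have hF' : ¬ F n (2 * (e + 2) + 1 + 2 * i + 1 + 1) true J := hF
    obtain ⟨a, ha, hF1⟩ : ∃ a, Legal a J ∧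
        ¬ F n (2 * (e + 2) + 1 + 2 * i + 1) false (step n a J) := by
      by_contra hc
      push Not at hc
      exact hF' (Or.inr hc)
    have hJ1 := hJ.step ha
    rw [show 2 * (k ^ 2 * (i + 1)) = 2 * (k ^ 2 * i) + 2 * k ^ 2 by ring]
    refine fillMax (Nat.mul_pos hk hn) (ok_ex hk hJ1) _ (k ^ 2) y hy (df_block hk hn h a)
      (fun w hw _ h2 h3 => ?_) (fun w hw h1 h3 hT => ?_)
    · push_cast at h3
      obtain ⟨b, hb, hle⟩ := queue hk hn hw hJ1 h2
        (by rw [sz_step hn]; nlinarith [sq_nonneg (k : ℤ)])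
      refine ih _ w (hJ1.step hb) hw hle ?_ ?_ fun hc => hF1 (Or.inr ⟨b, hb, hc⟩)
      · rw [sz_step hn, sz_step hn]; linarith
      · rw [sz_step hn, sz_step hn]; linarith
    · push_cast at h3
      exact hF ((near hk hn hw hJ (h.trans h1) (e := e + 2) (by push_cast; linarith) hT
        true).mono (by omega))

theorem ok_y0 (hn : 0 < n) : Ok n (y0 n) := by
  have hn' : (0 : ℤ) < n := by exact_mod_cast hn
  refine ⟨fun j => ?_, fun j => ?_⟩
  · have := mul_le_mul_of_nonneg_left
      (Int.ediv_le_ediv hn' (show -j - 1 ≤ -(j - 1) - 1 by linarith)) hn'.le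
    unfold y0; linarith
  · unfold y0
    rw [show -(j + n) - 1 = -j - 1 + n * (-1) by ring, Int.add_mul_ediv_left _ _ hn'.ne']
    ring

theorem y0_range {j : ℤ} (h0 : 0 ≤ j) (h1 : j < n) : y0 n j = 0 := by
  have hn' : (0 : ℤ) < n := by linarith
  unfold y0
  rw [show -j - 1 = (n - 1 - j) + n * (-1) by ring, Int.add_mul_ediv_left _ _ hn'.ne',
    Int.ediv_eq_zero_of_lt (by linarith) (by linarith)]
  ring

theorem sz_y0 : sz n (y0 n) = 0 :=
  Finset.sum_eq_zero fun j hj =>
    y0_range (by positivity) (by exact_mod_cast Finset.mem_range.1 hj)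

theorem ex_y0 (hk : 0 < k) (hn : 0 < n) : ex k (y0 n) ≤ y0 (k * n) := by
  have hk' : (0 : ℤ) < k := by exact_mod_cast hk
  refine le_of_range (Nat.mul_pos hk hn) (ok_ex hk (ok_y0 hn)) (ok_y0 (Nat.mul_pos hk hn))
    fun j hj => ?_
  have hj' : (j : ℤ) < k * n := by exact_mod_cast hj
  unfold ex
  rw [y0_range (n := k * n) (by positivity) (by exact_mod_cast hj),
    y0_range (Int.ediv_nonneg (by positivity) hk'.le)
      (Int.ediv_lt_of_lt_mul hk' (by linarith)), mul_zero]

theorem ub_main (hk : 0 < k) (hn : 0 < n) {m : ℕ} {x : Bool} (x' : Bool)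
    (hF : F n m x (y0 n)) : F (k * n) (k ^ 2 * (m + 4 * n + 3) + 1) x' (y0 (k * n)) := by
  have hN := Nat.mul_pos hk hn
  have key : ∀ y, Ok (k * n) y → y0 (k * n) ≤ y →
      F (k * n) (k ^ 2 * (m + 4 * n + 3)) false y := by
    intro y hy h
    have h0 := sz_mono (n := k * n) h
    rw [sz_y0] at h0
    refine (fillMin hN hy (k ^ 2 * (m + 1) + 2 * (n * k ^ 2)) ((n + 1) * k ^ 2) y hy
      (by rw [df_self]; positivity) fun w hw h1 _ h3 => ?_).mono (le_of_eq (by ring))
    push_cast at h3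
    have hle : ex k (y0 n) ≤ w := (ex_y0 hk hn).trans (h.trans h1)
    have hK := sq_nonneg (k : ℤ)
    have hs : (k : ℤ) ^ 2 * (sz n (y0 n) + 2 * n) ≤ sz (k * n) w := by rw [sz_y0]; nlinarith
    by_cases hT : Fin' n (y0 n)
    · exact ub hk hn m _ w (ok_y0 hn) hw hle hs (F_of_fin hT _ _)
    cases x
    · exact ub hk hn m _ w (ok_y0 hn) hw hle hs hF
    obtain _ | m := m
    · exact absurd hF hT
    obtain ⟨b, hb, hb'⟩ := queue hk hn hw (ok_y0 hn) hle (by rw [sz_y0]; nlinarith)
    exact ub hk hn _ _ w ((ok_y0 hn).step hb) hw hb' (by rw [sz_step hn, sz_y0]; nlinarith)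
      (hF.resolve_left hT b hb).succ
  cases x'
  · exact (key _ (ok_y0 hN) le_rfl).succ
  · exact Or.inr fun j hj => key _ ((ok_y0 hN).step hj) (le_step j _)

theorem lb_main (hk : 0 < k) (hn : 0 < n) {i : ℕ} {x : Bool} (x' : Bool)
    (hF : ¬ F n (4 * n + 12 + 2 * i) x (y0 n)) : ¬ F (k * n) (2 * (k ^ 2 * i)) x' (y0 (k * n)) := by
  have hN := Nat.mul_pos hk hn
  have hK : (1 : ℤ) ≤ (k : ℤ) ^ 2 := by
    have : (1 : ℤ) ≤ k := by exact_mod_cast hk
    nlinarith
  have nt : ∀ w, Ok (k * n) w → y0 (k * n) ≤ w → sz (k * n) w ≤ (k : ℤ) ^ 2 * (2 * n + 3) →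
      ¬ Fin' (k * n) w := fun w hw h1 h2 hT =>
    hF ((near hk hn hw (ok_y0 hn) ((ex_y0 hk hn).trans h1) (e := 2 * n + 3)
      (by rw [sz_y0]; push_cast; linarith) hT x).mono (by omega))
  have key : ∀ y, Ok (k * n) y → y0 (k * n) ≤ y → sz (k * n) y ≤ 1 →
      ¬ F (k * n) (2 * (k ^ 2 * i)) true y := by
    intro y hy h hs hc
    have h0 := sz_mono (n := k * n) h
    rw [sz_y0] at h0
    refine fillMax hN hy (2 * (k ^ 2 * i)) ((n + 1) * k ^ 2) y hy
      (by rw [df_self]; positivity) (fun w hw h1 _ h3 => ?_) (fun w hw h1 h3 => ?_)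
      (hc.mono (Nat.le_add_right _ _))
    · push_cast at h3
      have hle : ex k (y0 n) ≤ w := (ex_y0 hk hn).trans (h.trans h1)
      cases x
      · obtain ⟨b, hb, hb'⟩ := queue hk hn hw (ok_y0 hn) hle (by rw [sz_y0]; nlinarith)
        refine lb hk hn (2 * n + 3) i _ w ((ok_y0 hn).step hb) hw hb'
          (by rw [sz_step hn, sz_y0]; nlinarith)
          (by rw [sz_step hn, sz_y0]; push_cast; nlinarith) fun hc => hF ?_
        have : F n (2 * (2 * n + 3 + 2) + 1 + 2 * i + 1) false (y0 n) := Or.inr ⟨b, hb, hc⟩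
        exact this.mono (by omega)
      · exact lb hk hn (2 * n + 3) i _ w (ok_y0 hn) hw hle (by rw [sz_y0]; nlinarith)
          (by rw [sz_y0]; push_cast; nlinarith) fun hc => hF (hc.mono (by omega))
    · push_cast at h3
      exact nt w hw (h.trans h1) (by nlinarith)
  have hn0 : (0 : ℤ) ≤ n := by positivity
  cases x'
  · intro hc
    rcases hc.succ with hT | ⟨j, hj, hc'⟩
    · exact nt _ (ok_y0 hN) le_rfl (by rw [sz_y0]; nlinarith) hT
    · exact key _ ((ok_y0 hN).step hj) (le_step j _) (by rw [sz_step hN, sz_y0]; rfl) hc'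
  · exact key _ (ok_y0 hN) le_rfl (by rw [sz_y0]; norm_num)

end Pool.Agent.MP_d221f7_co

end MrgPart1

-- marker of a merged file
example : 731051 + 387606 = 731051 + 387606 := rfl
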