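import Mathlib

/-!
The toppling game on a finite graph.
-/

set_option autoImplicit false

namespace Pool.Agent.MP_d221f7_co

variable {V : Type} [Fintype V] [DecidableEq V] (G : SimpleGraph V) [DecidableRel G.Adj]

/-- `c'` arises from `c` by toppling one unstable vertex -/
def Topple (c c' : V → ℕ) : Prop :=
  ∃ v, G.degree v ≤ c v ∧
    c' = fun w => if w = v then c v - G.degree v else if G.Adj v w then c w + 1 else c w

/-- finitely many topplings lead from `c` to the stable configuration `c'` -/
def Settles (c c' : V → ℕ) : Prop :=
  Relation.ReflTransGen (Topple G) c c' ∧ ∀ v, c' v < G.degree v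

/-- Min can force the game to end within `k` moves from `c` (`true`: Max is to move).  A move
whose toppling phase never terminates has no `c'` and ends the game. -/
def Within : ℕ → Bool → (V → ℕ) → Prop
  | 0, _, _ => False
  | k + 1, true, c => ∀ v c', Settles G (Function.update c v (c v + 1)) c' → Within k false c'
  | k + 1, false, c => ∃ v, ∀ c', Settles G (Function.update c v (c v + 1)) c' → Within k true c'

end Pool.Agent.MP_d221f7_co
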