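import Mathlib
import Pool.Agent.MP_d221f7_co.Defs
import Pool.Agent.MP_d221f7_co.Sim

/-!
The toppling game on the complete graph is the game on cylindric diagrams; the limit.
-/

set_option autoImplicit false

namespace Pool.Agent.MP_d221f7_co

variable {n : ℕ}

def tau (y : ℤ → ℤ) : ℤ → ℤ := fun j => y (j - 1) - 1

theorem fin_tau (y : ℤ → ℤ) : Fin' n (tau y) ↔ Fin' n y :=
  ⟨fun h j => by have := h (j + 1); simp only [tau, add_sub_cancel_right] at this; linarith,
    fun h j => by have := h (j - 1); unfold tau; linarith⟩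

theorem legal_tau (y : ℤ → ℤ) (j : ℤ) : Legal j (tau y) ↔ Legal (j - 1) y := by
  simp [Legal, tau]

theorem step_tau (y : ℤ → ℤ) (j : ℤ) : step n j (tau y) = tau (step n (j - 1) y) := by
  funext i
  simp only [step, tau, show i - 1 - (j - 1) = i - j by ring]
  split_ifs <;> ring

theorem F_tau : ∀ (k : ℕ) (x : Bool) (y : ℤ → ℤ), F n k x (tau y) ↔ F n k x y
  | 0, _, y => fin_tau y
  | k + 1, true, y => by
    refine or_congr (fin_tau y) ⟨fun h j hj => ?_, fun h j hj => ?_⟩
    · have := h (j + 1) (by simpa [legal_tau] using hj)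
      rwa [step_tau, F_tau, add_sub_cancel_right] at this
    · rw [step_tau, F_tau]; exact h _ ((legal_tau y j).1 hj)
  | k + 1, false, y => by
    refine or_congr (fin_tau y) ⟨fun ⟨j, hj, h⟩ => ?_, fun ⟨j, hj, h⟩ => ?_⟩
    · rw [step_tau, F_tau] at h
      exact ⟨_, (legal_tau y j).1 hj, h⟩
    · refine ⟨j + 1, by simpa [legal_tau] using hj, ?_⟩
      rwa [step_tau, F_tau, add_sub_cancel_right]

/-- the diagram of a configuration -/
def yc (c : Fin n → ℕ) : ℤ → ℤ := fun j => ∑ i, ((c i : ℤ) - j - 1) / n + n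

theorem div_succ (hn : 0 < n) (a : ℤ) :
    (a + 1) / n = a / n + if (n : ℤ) ∣ a + 1 then 1 else 0 := by
  have hn' : (0 : ℤ) < n := by exact_mod_cast hn
  split_ifs with h
  · obtain ⟨t, ht⟩ := h
    have : a = (n - 1) + n * (t - 1) := by linarith
    rw [ht, this, Int.mul_ediv_cancel_left _ hn'.ne', Int.add_mul_ediv_left _ _ hn'.ne',
      Int.ediv_eq_zero_of_lt (by linarith) (by linarith)]
    ring
  · have h0 := Int.emod_nonneg a hn'.ne'
    have h1 := Int.emod_lt_of_pos a hn'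
    have h2 := Int.mul_ediv_add_emod a n
    have h3 : a % n + 1 ≠ n := fun hc => h ⟨a / n + 1, by linarith⟩
    have h4 : a + 1 = (a % n + 1) + n * (a / n) := by linarith
    rw [h4, Int.add_mul_ediv_left _ _ hn'.ne', Int.ediv_eq_zero_of_lt (by linarith) (by omega)]
    ring

theorem yc_update (hn : 0 < n) (c : Fin n → ℕ) (v : Fin n) :
    yc (Function.update c v (c v + 1)) = step n (c v) (yc c) := by
  funext j
  have key : ∀ i, (((Function.update c v (c v + 1) i : ℕ) : ℤ) - j - 1) / n =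
      ((c i : ℤ) - j - 1) / n + if i = v then (if (n : ℤ) ∣ j - c v then 1 else 0) else 0 := by
    intro i
    by_cases hi : i = v
    · subst hi
      have := div_succ hn ((c i : ℤ) - j - 1)
      rw [sub_add_cancel] at this
      simp only [Function.update_self, if_true, dvd_sub_comm (a := (n : ℤ)) (b := j)]
      push_cast
      rw [← this]; congr 1; ring
    · simp [hi]
  unfold yc step
  simp only [key, Finset.sum_add_distrib, Finset.sum_ite_eq', Finset.mem_univ, if_true]
  split_ifs <;> ring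

theorem legal_yc (hn : 0 < n) (c : Fin n → ℕ) (j : ℤ) :
    Legal j (yc c) ↔ ∃ v, (n : ℤ) ∣ (c v : ℤ) - j := by
  have key : ∀ i, ((c i : ℤ) - (j - 1) - 1) / n =
      ((c i : ℤ) - j - 1) / n + if (n : ℤ) ∣ (c i : ℤ) - j then 1 else 0 := by
    intro i
    have := div_succ hn ((c i : ℤ) - j - 1)
    rw [sub_add_cancel] at this
    rw [← this]; congr 1; ring
  unfold Legal yc
  simp only [key, Finset.sum_add_distrib, add_lt_add_iff_right, lt_add_iff_pos_right]
  rw [Finset.sum_pos_iff_of_nonneg (fun i _ => by split_ifs <;> simp)]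
  constructor
  · rintro ⟨v, _, hv⟩
    exact ⟨v, by by_contra hc; simp [hc] at hv⟩
  · rintro ⟨v, hv⟩
    exact ⟨v, Finset.mem_univ v, by simp [hv]⟩

theorem step_congr {i j : ℤ} (h : (n : ℤ) ∣ i - j) (y : ℤ → ℤ) : step n i y = step n j y := by
  funext l
  have : ((n : ℤ) ∣ l - i) ↔ ((n : ℤ) ∣ l - j) := by
    rw [show l - j = l - i + (i - j) by ring]; exact (dvd_add_left h).symm
  simp only [step, this]

theorem deg (v : Fin n) : (⊤ : SimpleGraph (Fin n)).degree v = n - 1 := by simp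

theorem yc_topple (hn : 0 < n) {c c' : Fin n → ℕ} (h : Topple ⊤ c c') : yc c' = tau (yc c) := by
  have hn' : (0 : ℤ) < n := by exact_mod_cast hn
  obtain ⟨v, hv, rfl⟩ := h
  rw [deg] at hv
  funext j
  have key : ∀ i, (((if i = v then c v - (⊤ : SimpleGraph (Fin n)).degree v
      else if (⊤ : SimpleGraph (Fin n)).Adj v i then c i + 1 else c i : ℕ) : ℤ) - j - 1) / n =
      ((c i : ℤ) - (j - 1) - 1) / n + if i = v then -1 else 0 := by
    intro i
    by_cases hi : i = v
    · subst hi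
      rw [if_pos rfl, if_pos rfl, deg, ← Int.add_mul_ediv_left _ _ hn'.ne']
      congr 1
      rw [Nat.cast_sub hv, Nat.cast_sub hn]; push_cast; ring
    · rw [if_neg hi, if_neg hi, if_pos (by simpa using Ne.symm hi), add_zero]
      congr 1
      push_cast; ring
  unfold yc tau
  simp only [key, Finset.sum_add_distrib, Finset.sum_ite_eq', Finset.mem_univ, if_true]
  ring

theorem F_reach (hn : 0 < n) {c c' : Fin n → ℕ} (h : Relation.ReflTransGen (Topple ⊤) c c')
    (k : ℕ) (x : Bool) : F n k x (yc c') ↔ F n k x (yc c) := by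
  induction h with
  | refl => rfl
  | tail _ h ih => rw [yc_topple hn h, F_tau, ih]

theorem yc_sum (c : Fin n → ℕ) (j : ℤ) : yc c j = ∑ i, (((c i : ℤ) - j - 1) / n + 1) := by
  simp [yc, Finset.sum_add_distrib]

theorem not_fin_of_stable (hn : 0 < n) {c : Fin n → ℕ} (h : ∀ v, c v < n - 1) :
    ¬ Fin' n (yc c) := fun hT => by
  have hn' : (0 : ℤ) < n := by exact_mod_cast hn
  have h1 := hT (n - 2)
  have h2 : yc c (n - 2) ≤ 0 := by
    rw [yc_sum]
    refine Finset.sum_nonpos fun i _ => ?_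
    have := h i
    have : ((c i : ℤ) - (n - 2) - 1) / n < 0 := Int.ediv_neg_of_neg_of_pos (by omega) hn'
    linarith
  linarith

theorem stable_of (hn : 0 < n) {c : Fin n → ℕ} (h : yc c (n - 2) ≤ 0) (v : Fin n) :
    c v < n - 1 := by
  have hn' : (0 : ℤ) < n := by exact_mod_cast hn
  by_contra hc
  have h1 : ∀ i, 0 ≤ ((c i : ℤ) - (n - 2) - 1) / n + 1 := fun i => by
    have : (-1 : ℤ) ≤ ((c i : ℤ) - (n - 2) - 1) / n :=
      Int.le_ediv_of_mul_le hn' (by have := Int.natCast_nonneg (c i); linarith)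
    linarith
  have h2 := Finset.single_le_sum (fun i _ => h1 i) (Finset.mem_univ v)
  rw [← yc_sum] at h2
  have h3 : 0 ≤ ((c v : ℤ) - (n - 2) - 1) / n := Int.ediv_nonneg (by omega) hn'.le
  linarith

theorem settles_aux (hn : 0 < n) : ∀ (d : ℕ) (c : Fin n → ℕ),
    yc c (n - 2 - d) + (n - 2 - d) ≤ n - 2 → ∃ c', Settles ⊤ c c' := by
  intro d
  induction d with
  | zero =>
    intro c h
    exact ⟨c, .refl, fun v => by rw [deg]; exact stable_of hn (by simpa using h) v⟩
  | succ d ih =>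
    intro c h
    by_cases hs : ∀ v, c v < (⊤ : SimpleGraph (Fin n)).degree v
    · exact ⟨c, .refl, hs⟩
    push Not at hs
    obtain ⟨v, hv⟩ := hs
    have ht : Topple ⊤ c _ := ⟨v, hv, rfl⟩
    obtain ⟨c', h1, h2⟩ := ih _ (by
      rw [yc_topple hn ht]
      unfold tau
      rw [show (n : ℤ) - 2 - d - 1 = n - 2 - ((d + 1 : ℕ) : ℤ) by push_cast; ring]
      push_cast at h ⊢
      linarith)
    exact ⟨c', .head ht h1, h2⟩

theorem yc_per (hn : 0 < n) (c : Fin n → ℕ) (j t : ℤ) : yc c (j + n * t) = yc c j - n * t := by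
  have hn' : (0 : ℤ) < n := by exact_mod_cast hn
  have key : ∀ i, ((c i : ℤ) - (j + n * t) - 1) / n = ((c i : ℤ) - j - 1) / n + -t := fun i => by
    rw [← Int.add_mul_ediv_left _ _ hn'.ne']; congr 1; ring
  unfold yc
  simp only [key, Finset.sum_add_distrib, Finset.sum_const, Finset.card_univ, Fintype.card_fin,
    nsmul_eq_mul]
  ring

theorem settles (hn : 0 < n) {c : Fin n → ℕ} (h : ¬ Fin' n (yc c)) : ∃ c', Settles ⊤ c c' := by
  have hn' : (1 : ℤ) ≤ n := by exact_mod_cast hn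
  unfold Fin' at h
  push Not at h
  obtain ⟨j, hj⟩ := h
  have h1 := yc_per hn c j (-(|j| + 1))
  have h2 : j + n * (-(|j| + 1)) ≤ n - 2 := by nlinarith [le_abs_self j, abs_nonneg j]
  refine settles_aux hn (n - 2 - (j + n * (-(|j| + 1)))).toNat c ?_
  rw [Int.toNat_of_nonneg (by linarith), sub_sub_cancel, h1]
  linarith

theorem within_iff (hn : 0 < n) : ∀ (k : ℕ) (x : Bool) (c : Fin n → ℕ), ¬ Fin' n (yc c) →
    (Within ⊤ k x c ↔ F n k x (yc c)) := by
  intro k
  induction k with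
  | zero => exact fun x c h => ⟨False.elim, h⟩
  | succ k ih =>
    have key : ∀ (x : Bool) (c : Fin n → ℕ) (v : Fin n),
        (∀ c', Settles ⊤ (Function.update c v (c v + 1)) c' → Within ⊤ k x c') ↔
          F n k x (step n (c v) (yc c)) := by
      intro x c v
      have hs : ∀ c', Settles ⊤ (Function.update c v (c v + 1)) c' →
          (Within ⊤ k x c' ↔ F n k x (step n (c v) (yc c))) := fun c' h => by
        rw [ih x c' (not_fin_of_stable hn fun w => by have := h.2 w; rwa [deg] at this),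
          F_reach hn h.1, yc_update hn]
      refine ⟨fun h => ?_, fun h c' hc => (hs c' hc).2 h⟩
      by_cases hT : Fin' n (yc (Function.update c v (c v + 1)))
      · rw [yc_update hn] at hT; exact F_of_fin hT _ _
      · obtain ⟨c', hc⟩ := settles hn hT
        exact (hs c' hc).1 (h c' hc)
    intro x c hc
    cases x
    · refine ⟨fun ⟨v, hv⟩ => Or.inr ⟨c v, (legal_yc hn c _).2 ⟨v, by simp⟩, (key _ c v).1 hv⟩,
        fun h => ?_⟩
      obtain ⟨j, hj, h⟩ := h.resolve_left hc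
      obtain ⟨v, hv⟩ := (legal_yc hn c j).1 hj
      exact ⟨v, (key _ c v).2 (by rwa [step_congr hv])⟩
    · refine ⟨fun h => Or.inr fun j hj => ?_, fun h v => (key _ c v).2 ?_⟩
      · obtain ⟨v, hv⟩ := (legal_yc hn c j).1 hj
        rw [← step_congr hv]
        exact (key _ c v).1 (h v)
      · exact h.resolve_left hc _ ((legal_yc hn c _).2 ⟨v, by simp⟩)

theorem yc_zero : yc (0 : Fin n → ℕ) = y0 n := by
  funext j
  simp [yc, y0]

theorem within_zero (hn : 2 ≤ n) (k : ℕ) (x : Bool) :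
    Within (⊤ : SimpleGraph (Fin n)) k x 0 ↔ F n k x (y0 n) := by
  rw [within_iff (by omega) k x 0 (not_fin_of_stable (by omega) fun v => by
    show 0 < n - 1; omega), yc_zero]

/-- the value of the abstract game -/
noncomputable def val (n : ℕ) (x : Bool) : ℕ := sInf {m | F n m x (y0 n)}

theorem val_least (hn : 0 < n) (x : Bool) : IsLeast {m | F n m x (y0 n)} (val n x) := by
  refine ⟨Nat.sInf_mem ⟨2 * (df n (top n) (y0 n)).toNat + 1, ?_⟩, fun m hm => Nat.sInf_le hm⟩
  exact short hn (ok_y0 hn) ok_top fin_top (Int.self_le_toNat _) x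

theorem val_up {k : ℕ} (hk : 0 < k) (hn : 0 < n) (x x' : Bool) :
    (val (k * n) x' : ℝ) ≤ (k : ℝ) ^ 2 * (val n x + (4 * n + 14)) := by
  have h := (val_least (Nat.mul_pos hk hn) x').2 (ub_main hk hn x' (val_least hn x).1)
  have h' : (val (k * n) x' : ℝ) ≤ (k : ℝ) ^ 2 * (val n x + 4 * n + 3) + 1 := by exact_mod_cast h
  have : (1 : ℝ) ≤ k := by exact_mod_cast hk
  nlinarith

theorem val_low {k : ℕ} (hk : 0 < k) (hn : 0 < n) (x x' : Bool) :
    (k : ℝ) ^ 2 * (val n x - (4 * n + 14)) ≤ val (k * n) x' := by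
  by_cases h : val n x ≤ 4 * n + 14
  · have h' : (val n x : ℝ) ≤ 4 * n + 14 := by exact_mod_cast h
    exact (mul_nonpos_of_nonneg_of_nonpos (by positivity) (by linarith)).trans (by positivity)
  obtain ⟨i, h1, h2⟩ : ∃ i, 4 * n + 12 + 2 * i < val n x ∧ val n x ≤ 4 * n + 14 + 2 * i :=
    ⟨(val n x - (4 * n + 13)) / 2, by omega, by omega⟩
  have h3 := lb_main hk hn x' (x := x) (i := i)
    fun hc => absurd ((val_least hn x).2 hc) (not_le.2 h1)
  have h4 : 2 * (k ^ 2 * i) ≤ val (k * n) x' := by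
    by_contra hc
    exact h3 (F.mono (val_least (Nat.mul_pos hk hn) x').1 (by omega))
  have h5 : 2 * ((k : ℝ) ^ 2 * i) ≤ val (k * n) x' := by exact_mod_cast h4
  have h6 : (val n x : ℝ) ≤ 4 * n + 14 + 2 * i := by exact_mod_cast h2
  nlinarith [sq_nonneg (k : ℝ)]

theorem cauchy {n m : ℕ} (hn : 0 < n) (hm : 0 < m) (x x' : Bool) :
    ((val m x' : ℝ) - (4 * m + 14)) / (m : ℝ) ^ 2 ≤ (val n x + (4 * n + 14)) / (n : ℝ) ^ 2 := by
  have h1 := val_low hn hm x' true
  have h2 := val_up hm hn x true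
  rw [Nat.mul_comm m n] at h2
  rw [div_le_div_iff₀ (by positivity) (by positivity)]
  linarith

theorem limit : ∃ c : ℝ, ∀ n : ℕ, 0 < n → ∀ x : Bool,
    |(val n x : ℝ) - c * (n : ℝ) ^ 2| ≤ 4 * n + 14 := by
  let S : Set ℝ := {r | ∃ (m : ℕ) (x : Bool), 0 < m ∧
    r = ((val m x : ℝ) - (4 * m + 14)) / (m : ℝ) ^ 2}
  have hub : ∀ (n : ℕ) (x : Bool), 0 < n →
      ((val n x : ℝ) + (4 * n + 14)) / (n : ℝ) ^ 2 ∈ upperBounds S := by
    rintro n x hn _ ⟨m, x', hm, rfl⟩
    exact cauchy hn hm x x'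
  refine ⟨sSup S, fun n hn x => ?_⟩
  have h1 := csSup_le (⟨_, 1, true, one_pos, rfl⟩ : S.Nonempty) (hub n x hn)
  have h2 := le_csSup (⟨_, hub 1 true one_pos⟩ : BddAbove S) ⟨n, x, hn, rfl⟩
  have h0 : (0 : ℝ) < (n : ℝ) ^ 2 := by positivity
  rw [le_div_iff₀ h0] at h1
  rw [div_le_iff₀ h0] at h2
  rw [abs_le]
  constructor <;> linarith

end Pool.Agent.MP_d221f7_co
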