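import Pool.Agent.MP_d221f7_co.Bridge

/-! Depth, unfilled area, waste; sequences with steps of at most one; principal diagrams. -/

set_option autoImplicit false

namespace Pool.Agent.MP_d221f7_co

open Finset

variable {n : ℕ} {y z w : ℤ → ℤ}

/-- the depth of a column below the staircase -/
def dp (n : ℕ) (y : ℤ → ℤ) (j : ℤ) : ℤ := n - 1 - j - y j

def ar (f : ℕ → ℤ) (m : ℕ) : ℤ := ∑ i ∈ range m, max (f i) 0

def cnt (f : ℕ → ℤ) (t : ℤ) (m : ℕ) : ℤ := ∑ i ∈ range m, if t ≤ f i then 1 else 0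

/-- unfilled cells of the staircase -/
def U (n : ℕ) (y : ℤ → ℤ) : ℤ := ∑ j ∈ range n, max (dp n y j) 0

/-- cells outside the staircase -/
def W (n : ℕ) (y : ℤ → ℤ) : ℤ := ∑ j ∈ range n, max (-dp n y j) 0

theorem sum_lin (c : ℤ) (l : ℕ) : 2 * ∑ i ∈ range l, (c + (i : ℤ)) = 2 * c * l + l * (l - 1) := by
  induction l with
  | zero => simp
  | succ l ih => rw [sum_range_succ]; push_cast; linarith

theorem sum_lin' (c : ℤ) (l : ℕ) : 2 * ∑ i ∈ range l, (c - (i : ℤ)) = 2 * c * l - l * (l - 1) := by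
  induction l with
  | zero => simp
  | succ l ih => rw [sum_range_succ]; push_cast; linarith

theorem two_sz : 2 * sz n y = n * (n - 1) - 2 * U n y + 2 * W n y := by
  have h := sum_lin' ((n : ℤ) - 1) n
  have h2 : sz n y + U n y - W n y = ∑ i ∈ range n, ((n : ℤ) - 1 - i) := by
    unfold sz U W
    rw [← sum_add_distrib, ← sum_sub_distrib]
    refine sum_congr rfl fun i _ => ?_
    unfold dp; omega
  linarith

theorem per_sum (f : ℤ → ℤ) (hf : ∀ j, f (j + n) = f j) (x : ℤ) :
    ∑ i ∈ range n, f (x + i) = ∑ j ∈ range n, f j := by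
  have key : ∀ x : ℤ, ∑ i ∈ range n, f (x + 1 + i) = ∑ i ∈ range n, f (x + i) := fun x => by
    have h1 := sum_range_succ (fun i : ℕ => f (x + i)) n
    have h2 := sum_range_succ' (fun i : ℕ => f (x + i)) n
    simp only [Nat.cast_add, Nat.cast_one, Nat.cast_zero, add_zero, hf] at h1 h2
    simp only [show ∀ i : ℤ, x + 1 + i = x + (i + 1) from fun i => by ring]
    linarith
  induction x using Int.induction_on with
  | zero => simp
  | succ t ih => rw [key, ih]
  | pred t ih => rw [← key, sub_add_cancel, ih]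

theorem rev_sum (f : ℤ → ℤ) (hf : ∀ j, f (j + n) = f j) (x : ℤ) :
    ∑ i ∈ range n, f (x - i) = ∑ j ∈ range n, f j := by
  rw [← per_sum f hf (x - n + 1), ← sum_range_reflect]
  refine sum_congr rfl fun i hi => ?_
  have := mem_range.1 hi
  congr 1
  rw [Nat.cast_sub (by omega), Nat.cast_sub (by omega)]
  push_cast; ring

theorem dp_per (hy : Ok n y) (j : ℤ) : dp n y (j + n) = dp n y j := by
  unfold dp; rw [hy.per]; ring

theorem dp_le (hy : Ok n y) (j : ℤ) {i k : ℤ} (h : i ≤ k) :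
    dp n y (j - k) ≤ dp n y (j - i) + (k - i) := by
  have := hy.antitone (show j - k ≤ j - i by linarith)
  unfold dp; linarith

theorem dp_anti (h : y ≤ w) (j : ℤ) : dp n w j ≤ dp n y j := by
  have := h j; unfold dp; linarith

theorem dp_sup (j : ℤ) : dp n (y ⊔ z) j = min (dp n y j) (dp n z j) := by
  unfold dp; rw [Pi.sup_apply]; omega

theorem U_rev (hy : Ok n y) (x : ℤ) : U n y = ar (fun i => dp n y (x - i)) n :=
  (rev_sum (fun j => max (dp n y j) 0) (fun j => by simp only [dp_per hy]) x).symm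

theorem W_rev (hy : Ok n y) (x : ℤ) : W n y = ∑ i ∈ range n, max (-dp n y (x - i)) 0 :=
  (rev_sum (fun j => max (-dp n y j) 0) (fun j => by simp only [dp_per hy]) x).symm

theorem sz_rev (hy : Ok n y) (hw : Ok n w) (x : ℤ) :
    sz n w - sz n y = ∑ i ∈ range n, (dp n y (x - i) - dp n w (x - i)) := by
  rw [rev_sum (fun j => dp n y j - dp n w j) (fun j => by simp only [dp_per hy, dp_per hw]) x]
  unfold sz
  rw [← sum_sub_distrib]
  exact sum_congr rfl fun i _ => by unfold dp; ring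

theorem df_rev (hy : Ok n y) (hz : Ok n z) (x : ℤ) :
    df n z y = ∑ i ∈ range n, max (dp n y (x - i) - dp n z (x - i)) 0 := by
  unfold df
  rw [sz_rev hy (hy.sup hz) x]
  exact sum_congr rfl fun i _ => by rw [dp_sup]; omega

theorem W_mono (h : y ≤ w) : W n y ≤ W n w :=
  sum_le_sum fun j _ => by have := dp_anti (n := n) h j; omega

theorem U_fin (h : Fin' n y) : U n y = 0 :=
  sum_eq_zero fun j _ => by have := h j; unfold dp; omega

theorem df_nonneg : 0 ≤ df n z y := sub_nonneg.2 (sz_mono le_sup_left)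

theorem ar_nonneg (f : ℕ → ℤ) (m : ℕ) : 0 ≤ ar f m := sum_nonneg fun _ _ => le_max_right _ _

theorem cnt_nonneg (f : ℕ → ℤ) (t : ℤ) (m : ℕ) : 0 ≤ cnt f t m :=
  sum_nonneg fun _ _ => by split_ifs <;> simp

theorem cnt_pos {f : ℕ → ℤ} {t : ℤ} {m i : ℕ} (hi : i < m) (h : t ≤ f i) : 0 < cnt f t m :=
  sum_pos' (fun _ _ => by split_ifs <;> simp) ⟨i, mem_range.2 hi, by simp [h]⟩

theorem up {f : ℕ → ℤ} (h0 : f 0 ≤ 1) (hs : ∀ i, f (i + 1) ≤ f i + 1) (m : ℕ) :
    2 * ar f m ≤ cnt f 1 m * (cnt f 1 m + 1) ∧ f m ≤ cnt f 1 m + 1 := by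
  induction m with
  | zero => simpa [ar, cnt] using h0
  | succ m ih =>
    have h1 := cnt_nonneg f 1 m
    have h2 := hs m
    obtain ⟨h3, h4⟩ := ih
    unfold ar cnt at *
    rw [sum_range_succ, sum_range_succ]
    split_ifs with h
    · rw [max_eq_left (by linarith)]
      constructor <;> nlinarith
    · rw [max_eq_right (by linarith)]
      constructor <;> linarith

theorem low {f : ℕ → ℤ} (h0 : f 0 ≤ 1) (hs : ∀ i, f (i + 1) ≤ f i + 1) {t : ℤ} (ht : 1 ≤ t)
    {m : ℕ} (h : 0 < cnt f t m) :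
    2 * t * cnt f t m + (t - 1) * t ≤ 2 * ar f m ∧ cnt f t m + (t - 1) ≤ cnt f 1 m := by
  have key : ∀ m, ∃ M : ℤ, 0 ≤ M ∧ M ≤ t - 1 ∧ (M = t - 1 ∨ (f m ≤ M + 1 ∧ cnt f t m = 0)) ∧
      2 * t * cnt f t m + M * (M + 1) ≤ 2 * ar f m ∧ cnt f t m + M ≤ cnt f 1 m := by
    intro m
    induction m with
    | zero => exact ⟨0, le_rfl, by linarith, Or.inr ⟨by linarith, by simp [cnt]⟩, by simp [cnt, ar],
        by simp [cnt]⟩
    | succ m ih =>
      obtain ⟨M, a1, a2, a3, a4, a5⟩ := ih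
      have h2 := hs m
      have e1 : cnt f t (m + 1) = cnt f t m + if t ≤ f m then 1 else 0 := sum_range_succ _ _
      have e2 : cnt f 1 (m + 1) = cnt f 1 m + if 1 ≤ f m then 1 else 0 := sum_range_succ _ _
      have e3 : ar f (m + 1) = ar f m + max (f m) 0 := sum_range_succ _ _
      rw [e1, e2, e3]
      by_cases hM : M = t - 1
      · refine ⟨M, a1, a2, Or.inl hM, ?_, by split_ifs <;> omega⟩
        have := le_max_left (f m) 0
        have := le_max_right (f m) 0
        split_ifs <;> linarith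
      obtain ⟨b1, b2⟩ := a3.resolve_left hM
      rw [if_neg (show ¬ t ≤ f m by omega)]
      by_cases hf : f m = M + 1
      · refine ⟨M + 1, by omega, by omega, Or.inr ⟨by omega, by omega⟩, ?_, by split_ifs <;> omega⟩
        rw [max_eq_left (by omega), hf]; linarith
      · refine ⟨M, a1, a2, Or.inr ⟨by omega, by omega⟩, ?_, by split_ifs <;> omega⟩
        have := le_max_right (f m) 0
        linarith
  obtain ⟨M, -, -, a3, a4, a5⟩ := key m
  obtain rfl := a3.resolve_right fun h' => by omega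
  exact ⟨by linarith, a5⟩

/-- a deep column forces a triangle -/
theorem low1 {f : ℕ → ℤ} (h0 : f 0 ≤ 1) (hs : ∀ i, f (i + 1) ≤ f i + 1) {t : ℤ} (ht : 1 ≤ t)
    {m i : ℕ} (hi : i < m) (h : t ≤ f i) : t * (t + 1) ≤ 2 * ar f m := by
  have h1 := cnt_pos hi h
  have h2 := (low h0 hs ht h1).1
  nlinarith

theorem dp_step (hy : Ok n y) (x : ℤ) (i : ℕ) :
    dp n y (x - ((i + 1 : ℕ) : ℤ)) ≤ dp n y (x - i) + 1 := by
  have := dp_le hy x (i := i) (k := ((i + 1 : ℕ) : ℤ)) (by push_cast; linarith)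
  push_cast at this ⊢
  linarith

/-- the waste is at most the triangle over the covered columns -/
theorem cap (hy : Ok n y) (h : ¬ Fin' n y) (x : ℤ) :
    2 * W n y ≤ (n - cnt (fun i => dp n y (x - i)) 1 n) *
      (n - cnt (fun i => dp n y (x - i)) 1 n - 1) := by
  obtain ⟨j, hj⟩ : ∃ j, 1 ≤ dp n y j := by
    by_contra hc
    push Not at hc
    exact h fun j => by have := hc j; unfold dp at this; linarith
  have h1 := (up (f := fun i => 1 - dp n y (j + i)) (by simp; linarith) (fun i => by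
    have := dp_le hy (j + i + 1) (i := 0) (k := 1) (by norm_num)
    simp only [add_sub_cancel_right, sub_zero] at this
    push_cast; rw [← add_assoc]; linarith) n).1
  have h2 : cnt (fun i => 1 - dp n y (j + i)) 1 n = n - cnt (fun i => dp n y (x - i)) 1 n := by
    unfold cnt
    rw [rev_sum (fun j => if 1 ≤ dp n y j then 1 else 0) (fun j => by simp only [dp_per hy]) x,
      per_sum (fun j => if 1 ≤ 1 - dp n y j then 1 else 0) (fun j => by simp only [dp_per hy]) j,
      eq_sub_iff_add_eq, ← sum_add_distrib,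
      sum_congr rfl (g := fun _ => (1 : ℤ)) fun i _ => by split_ifs <;> omega]
    simp
  have h3 : ar (fun i => 1 - dp n y (j + i)) n = W n y + cnt (fun i => 1 - dp n y (j + i)) 1 n := by
    unfold ar cnt W
    rw [← per_sum (fun j => max (-dp n y j) 0) (fun j => by simp only [dp_per hy]) j,
      ← sum_add_distrib]
    exact sum_congr rfl fun i _ => by beta_reduce; split_ifs <;> omega
  rw [h3, h2] at h1
  linarith

theorem one_block (g : ℕ → ℤ) (hg : ∀ i, 0 ≤ g i) {a l m : ℕ} (h : a + l ≤ m) :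
    ∑ i ∈ range a, g i + ∑ i ∈ range l, g (a + i) ≤ ∑ i ∈ range m, g i := by
  rw [← sum_range_add]
  exact sum_le_sum_of_subset_of_nonneg (range_mono h) fun i _ _ => hg i

theorem two_blocks (g : ℕ → ℤ) (hg : ∀ i, 0 ≤ g i) {a l b k m : ℕ} (h : a + l ≤ b)
    (h' : b + k ≤ m) :
    ∑ i ∈ range l, g (a + i) + ∑ i ∈ range k, g (b + i) ≤ ∑ i ∈ range m, g i := by
  have h1 := one_block g hg h
  have h2 := one_block g hg h'
  have h3 : 0 ≤ ∑ i ∈ range a, g i := sum_nonneg fun i _ => hg i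
  linarith

/-- the least diagram whose column `x` has height `H` -/
def pr (n : ℕ) (x H : ℤ) : ℤ → ℤ := fun j => H + n * ((x - j) / n)

theorem ok_pr (hn : 0 < n) (x H : ℤ) : Ok n (pr n x H) := by
  have hn' : (0 : ℤ) < n := by exact_mod_cast hn
  refine ⟨fun j => ?_, fun j => ?_⟩
  · have := mul_le_mul_of_nonneg_left
      (Int.ediv_le_ediv hn' (show x - j ≤ x - (j - 1) by linarith)) hn'.le
    unfold pr; linarith
  · unfold pr
    rw [show x - (j + n) = x - j + n * (-1) by ring, Int.add_mul_ediv_left _ _ hn'.ne']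
    ring

theorem pr_eq {x H i : ℤ} (h0 : 0 ≤ i) (h1 : i < n) : pr n x H (x - i) = H := by
  unfold pr
  rw [sub_sub_cancel, Int.ediv_eq_zero_of_lt h0 h1]; ring

theorem le_of_pr (hn : 0 < n) {x H : ℤ} (h : pr n x H ≤ w) : H ≤ w x := by
  have := h (x - 0)
  rwa [pr_eq le_rfl (by exact_mod_cast hn), sub_zero] at this

theorem rowfill (hn : 0 < n) (hy : Ok n y) {c H : ℤ} (h : H ≤ y c) : ∃ r : ℕ, r ≤ n ∧
    (∀ i : ℕ, i < r → y (c - i) = H) ∧ (∀ i : ℕ, r ≤ i → i < n → H < y (c - i)) ∧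
    df n (pr n c (H + 1)) y = r := by
  classical
  have ex : ∃ r : ℕ, n ≤ r ∨ H < y (c - r) := ⟨n, Or.inl le_rfl⟩
  have hr : Nat.find ex ≤ n := Nat.find_min' ex (Or.inl le_rfl)
  have h1 : ∀ i : ℕ, i < Nat.find ex → y (c - i) = H := fun i hi => by
    have := Nat.find_min ex hi
    have := hy.antitone (show c - i ≤ c by simp)
    omega
  have h2 : ∀ i : ℕ, Nat.find ex ≤ i → i < n → H < y (c - i) := fun i hi hi' => by
    have := Nat.find_spec ex
    have := hy.antitone (show c - i ≤ c - (Nat.find ex : ℕ) by omega)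
    omega
  refine ⟨_, hr, h1, h2, ?_⟩
  generalize Nat.find ex = r at *
  obtain ⟨k, rfl⟩ := Nat.exists_eq_add_of_le hr
  have e1 : ∑ i ∈ range r, max (dp (r + k) y (c - i) - dp (r + k) (pr (r + k) c (H + 1)) (c - i)) 0 =
      ∑ _i ∈ range r, (1 : ℤ) := sum_congr rfl fun i hi => by
    have := mem_range.1 hi
    have := h1 i this
    unfold dp
    rw [pr_eq (by positivity) (by omega)]; omega
  rw [df_rev hy (ok_pr hn _ _) c, sum_range_add, e1, sum_eq_zero (s := range k) fun i hi => ?_]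
  · simp
  · have := mem_range.1 hi
    have := h2 (r + i) (by omega) (by omega)
    unfold dp
    rw [pr_eq (by positivity) (by omega)]; omega

theorem colfill (hn : 0 < n) (hy : Ok n y) {c H : ℤ} (h : H ≤ y (c - 1)) :
    df n (pr n c H) y = max (H - y c) 0 := by
  obtain ⟨k, rfl⟩ : ∃ k, n = k + 1 := ⟨n - 1, by omega⟩
  rw [df_rev hy (ok_pr hn _ _) c, sum_range_succ', sum_eq_zero fun i hi => ?_]
  · unfold dp
    rw [pr_eq (by simp) (by omega)]; simp
  · have := mem_range.1 hi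
    have := hy.antitone (show c - ((i + 1 : ℕ) : ℤ) ≤ c - 1 by omega)
    unfold dp
    rw [pr_eq (by positivity) (by omega)]; omega

/-- evaluate `x` first -/
def frc {α : Type} (x : ℕ) (f : ℕ → α) : α := Nat.rec (f 0) (fun k _ => f (k + 1)) x

theorem frc_eq {α : Type} (x : ℕ) (f : ℕ → α) : frc x f = f x := by cases x <;> rfl

end Pool.Agent.MP_d221f7_co
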