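import Pool.Agent.MP_d221f7_co.E1

/-! The strategy of Max: extend one waste triangle, or take over the middle of the gap. -/

set_option autoImplicit false

namespace Pool.Agent.MP_d221f7_co

open Finset

variable {n : ℕ} {y z w : ℤ → ℤ} {T : ℤ}

/-- Max, to move, can make the total number of moves at least `T`. -/
def Good (n : ℕ) (T : ℤ) (y : ℤ → ℤ) : Prop := ∀ k : ℕ, F n k true y → T ≤ sz n y + k

theorem fillG (hn : 0 < n) (hz : Ok n z) : ∀ (r : ℕ) (y : ℤ → ℤ), Ok n y → df n z y ≤ r →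
    (∀ w, Ok n w → y ≤ w → z ≤ w → sz n w = sz n y + 2 * r → Good n T w) →
    (∀ w, Ok n w → y ≤ w → Fin' n w → 2 * df n z w + sz n w ≤ 2 * r + sz n y → T ≤ sz n w) →
    Good n T y := by
  intro r
  induction r with
  | zero => exact fun y hy h H _ => H y hy le_rfl (df_zero hn hy hz (by simpa using h)) (by simp)
  | succ r ih =>
    intro y hy h H E k hF
    have e0 : Fin' n y → T ≤ sz n y := fun hT => E y hy le_rfl hT (by linarith)
    obtain _ | k := k
    · simpa using e0 hF
    obtain ⟨j, hj, hd⟩ := pick hn hy hz h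
    have hk : (0 : ℤ) ≤ k := by positivity
    rcases hF with hF | hF
    · have := e0 hF; push_cast; linarith
    have e1 : Fin' n (step n j y) → T ≤ sz n y + 1 := fun hT => by
      have := E _ (hy.step hj) (le_step j y) hT (by rw [sz_step hn]; push_cast; linarith)
      rwa [sz_step hn] at this
    have hF := hF j hj
    obtain _ | k := k
    · simpa using e1 hF
    rcases hF with hF | ⟨i, hi, hF⟩
    · have := e1 hF; push_cast at hk ⊢; linarith
    have hle : y ≤ step n i (step n j y) := (le_step j y).trans (le_step i _)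
    have := ih _ ((hy.step hj).step hi) ((df_step i z _).trans hd) (fun w hw h1 h2 h3 => ?_)
      (fun w hw h1 h2 h3 => ?_) k hF
    · rw [sz_step hn, sz_step hn] at this; push_cast; linarith
    · refine H w hw (hle.trans h1) h2 ?_
      rw [h3, sz_step hn, sz_step hn]; push_cast; ring
    · refine E w hw (hle.trans h1) h2 ?_
      rw [sz_step hn, sz_step hn] at h3; push_cast; linarith

/-- Max fills the target `z`. -/
theorem stepG (hn : 0 < n) (hy : Ok n y) (hz : Ok n z)
    (H : ∀ w, Ok n w → y ⊔ z ≤ w → U n (y ⊔ z) - df n z y ≤ U n w → Good n T w)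
    (E : ∀ w, Ok n w → Fin' n w → W n y + 2 * U n (y ⊔ z) - U n y ≤ W n w →
      U n y ≤ 2 * df n z y → T ≤ sz n w) : Good n T y := by
  have h0 := df_nonneg (n := n) (y := y) (z := z)
  have a1 := two_sz (n := n) (y := y)
  have a2 := two_sz (n := n) (y := y ⊔ z)
  have a3 : df n z y = sz n (y ⊔ z) - sz n y := rfl
  refine fillG hn hz (df n z y).toNat y hy (by omega) (fun w hw h1 h2 h3 => ?_)
    fun w hw h1 h2 h3 => ?_
  · have a4 := two_sz (n := n) (y := w)
    have a5 := W_mono (n := n) (sup_le h1 h2)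
    rw [Int.toNat_of_nonneg h0] at h3
    exact H w hw (sup_le h1 h2) (by linarith)
  · have a4 := two_sz (n := n) (y := w)
    have a5 := two_sz (n := n) (y := w ⊔ z)
    have a6 : df n z w = sz n (w ⊔ z) - sz n w := rfl
    have a7 := W_mono (n := n) (sup_le_sup_right h1 z)
    have a8 := W_mono (n := n) h1
    have a9 := df_nonneg (n := n) (y := w) (z := z)
    rw [U_fin h2] at a4
    rw [U_fin (h2.mono le_sup_left)] at a5
    rw [Int.toNat_of_nonneg h0] at h3
    exact E w hw h2 (by linarith) (by linarith)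

theorem good_of_W (hn : 0 < n) (hy : Ok n y) (h : 2 * T ≤ n * (n - 1) + 2 * W n y) :
    Good n T y := by
  have key : ∀ (k : ℕ) (x : Bool) (y : ℤ → ℤ), Ok n y → F n k x y →
      n * (n - 1) + 2 * W n y ≤ 2 * (sz n y + k) := by
    have e0 : ∀ (k : ℕ) y, Fin' n y → n * (n - 1) + 2 * W n y ≤ 2 * (sz n y + k) := fun k y h => by
      have := two_sz (n := n) (y := y)
      have hk : (0 : ℤ) ≤ k := by positivity
      rw [U_fin h] at this; linarith
    intro k
    induction k with
    | zero => exact fun x y _ h => e0 0 y (by cases x <;> exact h)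
    | succ k ih =>
      intro x y hy h
      have e1 : ∀ x j, Legal j y → F n k x (step n j y) →
          n * (n - 1) + 2 * W n y ≤ 2 * (sz n y + (k + 1 : ℕ)) := fun x j hj h => by
        have h1 := ih x _ (hy.step hj) h
        have h2 := W_mono (n := n) (le_step (n := n) j y)
        rw [sz_step hn] at h1; push_cast; linarith
      cases x
      · rcases h with h | ⟨j, hj, h⟩
        · exact e0 _ y h
        · exact e1 _ j hj h
      · rcases h with h | h
        · exact e0 _ y h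
        · obtain ⟨j, hj⟩ := exists_legal hn hy
          exact e1 _ j hj (h j hj)
  intro k hF
  have := key k true y hy hF
  linarith

/-- two waste triangles on disjoint columns -/
theorem W_two (hy : Ok n y) {x : ℤ} {s b g : ℕ} (h1 : dp n y x ≤ -s) (h2 : s + 1 ≤ b)
    (h3 : b + g ≤ n) (h4 : g = 0 ∨ dp n y (x - b) ≤ 1 - g) :
    (s : ℤ) * (s + 1) + g * (g - 1) ≤ 2 * W n y := by
  have h5 := two_blocks (fun i => max (-dp n y (x - i)) 0) (fun _ => le_max_right _ _)
    (a := 0) (l := s + 1) (b := b) (k := g) (m := n) (by omega) h3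
  have h6 : ∑ i ∈ range (s + 1), ((s : ℤ) - i) ≤
      ∑ i ∈ range (s + 1), max (-dp n y (x - (0 + i : ℕ))) 0 := sum_le_sum fun i _ => by
    have := dp_le hy x (i := 0) (k := (0 + i : ℕ)) (by positivity)
    rw [sub_zero] at this; omega
  have h7 : ∑ i ∈ range g, ((g : ℤ) - 1 - i) ≤
      ∑ i ∈ range g, max (-dp n y (x - (b + i : ℕ))) 0 := sum_le_sum fun i hi => by
    have := mem_range.1 hi
    have := dp_le hy x (i := b) (k := (b + i : ℕ)) (by omega)
    omega
  have h8 := sum_lin' s (s + 1)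
  have h9 := sum_lin' ((g : ℤ) - 1) g
  rw [W_rev hy x]
  push_cast at h8
  linarith

/-- two unfilled regions at the two ends of the gap -/
theorem U_two (hy : Ok n y) {x u : ℤ} {s m l : ℕ} (h1 : ∀ i : ℕ, i < m → i + 1 ≤ dp n y (x - (s + 1 + i : ℕ)))
    (h2 : ∀ i : ℕ, i < l → u - l + 1 + i ≤ dp n y (x - (n - l + i : ℕ))) (h3 : s + 1 + m + l ≤ n) :
    (m : ℤ) * (m + 1) + 2 * l * u - l * (l - 1) ≤ 2 * U n y := by
  have h5 := two_blocks (fun i => max (dp n y (x - i)) 0) (fun _ => le_max_right _ _)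
    (a := s + 1) (l := m) (b := n - l) (k := l) (m := n) (by omega) (by omega)
  have h6 : ∑ i ∈ range m, ((1 : ℤ) + i) ≤
      ∑ i ∈ range m, max (dp n y (x - (s + 1 + i : ℕ))) 0 := sum_le_sum fun i hi => by
    have := h1 i (mem_range.1 hi); omega
  have h7 : ∑ i ∈ range l, (u - l + 1 + i) ≤
      ∑ i ∈ range l, max (dp n y (x - (n - l + i : ℕ))) 0 := sum_le_sum fun i hi => by
    have := h2 i (mem_range.1 hi); omega
  have h8 := sum_lin 1 m
  have h9 := sum_lin (u - l + 1) l
  rw [U_rev hy x]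
  unfold ar
  linarith

/-- With a waste triangle of size `s` and at least `ρ` unfilled cells Max reaches `T`. -/
def Claim (n : ℕ) (T : ℤ) (s : ℕ) (ρ : ℤ) : Prop :=
  ∀ y x, Ok n y → dp n y x ≤ -s → ρ ≤ U n y → Good n T y

theorem extend (hn : 0 < n) (hy : Ok n y) (hz : Ok n z) {s : ℕ} {ρ m x : ℤ}
    (hc : Claim n T (s + 1) ρ) (hρ : (s : ℤ) + 2 ≤ ρ) (h1 : df n z y ≤ m + s + 1)
    (h2 : U n y - m ≤ U n (y ⊔ z)) (h3 : dp n z x ≤ -s - 1) (h4 : ρ + 2 * m + s + 1 ≤ U n y) :
    Good n T y := by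
  refine stepG hn hy hz (fun w hw a1 a2 => hc w x hw ?_ (by linarith)) fun w _ _ _ a => by linarith
  have := dp_anti (n := n) (le_sup_right.trans a1) x
  push_cast; linarith

theorem claim_step (hn : 0 < n) {s k0 k1 l g : ℕ} {ρ ρ' V : ℤ} (hc : Claim n T (s + 1) ρ')
    (hT : 2 * T ≤ n * (n - 1) + V) (hs : s + 1 ≤ n) (h1 : (s : ℤ) + 2 ≤ ρ')
    (h2 : ρ' + 2 * k0 + s + 1 ≤ ρ)
    (hA : n ≤ s + 1 + k1 ∨ (2 ≤ l ∧ s + 1 + (k1 + 1) + l ≤ n ∧
      2 * (ρ' + 2 * (k1 + 1) + s + 1) ≤ ((k1 : ℤ) + 1) * (k1 + 2) + 2 * l * (k1 + 1) - l * (l - 1)))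
    (hB : k1 ≤ k0 ∨ (s + 1 + 2 * (k0 + 1) + g = n ∧ V ≤ (s : ℤ) * (s + 1) + g * (g - 1) ∧
      V + 2 * (ρ' + s + 2 * k1) ≤ (s : ℤ) * (s + 1) + 4 * (k0 + 1) * (k0 + 2))) :
    Claim n T s ρ := by
  intro y x hy hx hU
  have hH : (n : ℤ) - 1 - x + s ≤ y x := by unfold dp at hx; linarith
  obtain ⟨r, hr, r1, r2, r3⟩ := rowfill hn hy hH
  have hpk : ∀ i : ℕ, dp n y (x - i) ≤ i - s := fun i => by
    have := dp_le hy x (i := 0) (k := i) (by positivity)
    rw [sub_zero] at this; linarith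
  have hu : dp n y (x - (n - 1 : ℕ)) = dp n y (x + 1) := by
    rw [← dp_per hy, Nat.cast_sub hn]; congr 1; push_cast; ring
  -- the two extensions
  have eU : ∀ m : ℤ, 0 ≤ m → (r : ℤ) - s - 1 ≤ m → ρ' + 2 * m + s + 1 ≤ U n y → Good n T y := by
    intro m m0 m1 m2
    refine extend hn hy (ok_pr hn x (n - 1 - x + s + 1)) (x := x) hc h1 (by linarith) ?_ ?_ m2
    · rw [U_rev hy x, U_rev (hy.sup (ok_pr hn _ _)) x, sub_le_iff_le_add]
      have h5 : ∑ i ∈ range n, (if s + 1 ≤ i ∧ i < r then (1 : ℤ) else 0) ≤ m := by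
        rw [sum_boole]
        have : filter (fun i => s + 1 ≤ i ∧ i < r) (range n) ⊆ Ico (s + 1) r := fun i hi =>
          mem_Ico.2 (mem_filter.1 hi).2
        have := card_le_card this
        rw [Nat.card_Ico] at this
        omega
      refine le_trans ?_ (add_le_add_right h5 _)
      unfold ar
      rw [← sum_add_distrib]
      refine sum_le_sum fun i hi => ?_
      have hi := mem_range.1 hi
      have a1 := hpk i
      have a2 := r2 i
      have a3 : dp n (pr n x (n - 1 - x + s + 1)) (x - i) = i - s - 1 := by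
        unfold dp; rw [pr_eq (by positivity) (by omega)]; ring
      beta_reduce
      rw [dp_sup, a3]
      unfold dp at *
      split_ifs <;> omega
    · have := pr_eq (n := n) (x := x) (H := n - 1 - x + s + 1) (i := 0) le_rfl (by omega)
      rw [sub_zero] at this
      unfold dp; rw [this]; linarith
  have eR : ∀ m : ℤ, 0 ≤ m → dp n y (x + 1) ≤ m → ρ' + 2 * m + s + 1 ≤ U n y → Good n T y := by
    intro m m0 m1 m2
    have hd := colfill hn hy (c := x + 1) (H := n - 1 - x + s) (by rwa [add_sub_cancel_right])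
    refine extend hn hy (ok_pr hn (x + 1) (n - 1 - x + s)) (x := x + 1) hc h1
      (by rw [hd]; unfold dp at m1; omega) ?_ ?_ m2
    · obtain ⟨k, rfl⟩ : ∃ k, n = k + 1 := ⟨n - 1, by omega⟩
      rw [U_rev hy (x + 1), U_rev (hy.sup (ok_pr hn _ _)) (x + 1)]
      unfold ar
      rw [sum_range_succ', sum_range_succ']
      have h5 : ∑ i ∈ range k, max (dp (k + 1) y (x + 1 - (i + 1 : ℕ))) 0 ≤ ∑ i ∈ range k,
          max (dp (k + 1) (y ⊔ pr (k + 1) (x + 1) ((k + 1 : ℕ) - 1 - x + s))
            (x + 1 - (i + 1 : ℕ))) 0 := by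
        refine sum_le_sum fun i hi => ?_
        have hi := mem_range.1 hi
        have a1 := hy.antitone (show x + 1 - (i + 1 : ℕ) ≤ x by omega)
        rw [dp_sup]
        unfold dp
        rw [pr_eq (by positivity) (by omega)]
        omega
      simp only [Nat.cast_zero, sub_zero]
      omega
    · have := pr_eq (n := n) (x := x + 1) (H := n - 1 - x + s) (i := 0) le_rfl (by omega)
      rw [sub_zero] at this
      unfold dp; rw [this]; linarith
  have eM : ∀ m : ℤ, 0 ≤ m → min ((r : ℤ) - s - 1) (dp n y (x + 1)) ≤ m →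
      ρ' + 2 * m + s + 1 ≤ U n y → Good n T y := fun m m0 m1 m2 => by
    rcases min_le_iff.1 m1 with h | h
    exacts [eU m m0 h m2, eR m m0 h m2]
  have hrow : ∀ m i : ℕ, (m : ℤ) ≤ r - s - 1 → i < m → i + 1 ≤ dp n y (x - (s + 1 + i : ℕ)) :=
    fun m i a b => by
      have := r1 (s + 1 + i) (by omega)
      unfold dp; omega
  have hcol : ∀ (u : ℤ) (l i : ℕ), u ≤ dp n y (x + 1) → l ≤ n → i < l →
      u - l + 1 + i ≤ dp n y (x - (n - l + i : ℕ)) := fun u l i a b c => by
    have := dp_le hy x (i := (n - l + i : ℕ)) (k := (n - 1 : ℕ)) (by omega)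
    omega
  set m := min ((r : ℤ) - s - 1) (dp n y (x + 1)) with hm
  have m1 : m ≤ r - s - 1 := min_le_left _ _
  have m2 : m ≤ dp n y (x + 1) := min_le_right _ _
  by_cases c0 : m ≤ k0
  · exact eM k0 (by positivity) c0 (by linarith)
  by_cases c1 : (k1 : ℤ) < m
  · obtain ⟨a1, a2, a3⟩ := hA.resolve_left (by omega)
    have := U_two hy (x := x) (u := m) (s := s) (m := k1 + 1) (l := l)
      (fun i hi => hrow _ i (by omega) hi) (fun i hi => hcol _ _ i m2 (by omega) hi) a2
    refine eM m (by omega) le_rfl ?_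
    have a4 : (2 : ℤ) ≤ l := by exact_mod_cast a1
    push_cast at this
    nlinarith [mul_nonneg (sub_nonneg.2 a4) (show 0 ≤ m - (k1 + 1) by omega)]
  by_cases c2 : ρ' + 2 * k1 + s + 1 ≤ U n y
  · exact eM k1 (by positivity) (by omega) c2
  obtain ⟨b1, b2, b3⟩ := hB.resolve_left (by omega)
  -- the attack on the middle of the gap
  have hz := ok_pr hn (x - (s + 1 + (k0 + 1) : ℕ)) (2 * n - 2 - x - (k0 + 1))
  have z1 : ∀ i : ℕ, s + 1 + (k0 + 1) ≤ i → i < n →
      dp n (pr n (x - (s + 1 + (k0 + 1) : ℕ)) (2 * n - 2 - x - (k0 + 1))) (x - i) =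
        i + 1 + (k0 + 1) - n := fun i a b => by
    have := pr_eq (n := n) (x := x - (s + 1 + (k0 + 1) : ℕ)) (H := 2 * n - 2 - x - (k0 + 1))
      (i := i - (s + 1 + (k0 + 1) : ℕ)) (by omega) (by omega)
    rw [show x - (s + 1 + (k0 + 1) : ℕ) - (i - (s + 1 + (k0 + 1) : ℕ)) = x - i by ring] at this
    unfold dp; rw [this]; ring
  have z2 : ∀ i : ℕ, i < s + 1 + (k0 + 1) →
      dp n (pr n (x - (s + 1 + (k0 + 1) : ℕ)) (2 * n - 2 - x - (k0 + 1))) (x - i) =
        i + 1 + (k0 + 1) := fun i a => by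
    have := pr_eq (n := n) (x := x - (s + 1 + (k0 + 1) : ℕ)) (H := 2 * n - 2 - x - (k0 + 1))
      (i := i + n - (s + 1 + (k0 + 1) : ℕ)) (by omega) (by omega)
    rw [show x - (s + 1 + (k0 + 1) : ℕ) - (i + n - (s + 1 + (k0 + 1) : ℕ)) = x - i - n by ring]
      at this
    rw [← sub_add_cancel (x - i) n, dp_per hz]
    unfold dp; rw [this]; ring
  have hU' := U_two (hy.sup hz) (x := x) (u := k0 + 1) (s := s) (m := k0 + 1) (l := k0 + 1)
    (fun i hi => by
      have := hrow (k0 + 1) i (by omega) hi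
      rw [dp_sup, z2 _ (by omega)]; omega)
    (fun i hi => by
      have := hcol (k0 + 1) (k0 + 1) i (by omega) (by omega) hi
      rw [dp_sup, z1 _ (by omega) (by omega)]; omega) (by omega)
  refine stepG hn hy hz (fun w hw a1 _ => good_of_W hn hw ?_) fun w hw a1 a2 _ => ?_
  · have := W_two hw (x := x) (s := s) (b := s + 1 + (k0 + 1)) (g := g)
      ((dp_anti (le_sup_left.trans a1) x).trans hx) (by omega) (by omega)
      (Or.inr ((dp_anti (le_sup_right.trans a1) _).trans (by rw [z1 _ le_rfl (by omega)]; omega)))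
    linarith
  · have a3 := W_two hy (x := x) (s := s) (b := s + 1) (g := 0) hx le_rfl (by omega) (Or.inl rfl)
    have a4 := two_sz (n := n) (y := w)
    have a5 : U n y ≤ ρ' + 2 * k1 + s := by omega
    rw [U_fin a1] at a4
    rw [Nat.cast_succ k0] at hU'
    push_cast at a3
    linarith

theorem claim_end (hn : 0 < n) {s : ℕ} {ρ V : ℤ} (hT : 2 * T ≤ n * (n - 1) + V) (hs : s + 1 ≤ n)
    (h : V ≤ (s : ℤ) * (s + 1)) : Claim n T s ρ := fun y x hy hx _ => by
  have a3 := W_two hy (x := x) (s := s) (b := s + 1) (g := 0) hx le_rfl (by omega) (Or.inl rfl)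
  exact good_of_W hn hy (by push_cast at a3; linarith)

theorem val_ge (hn : 0 < n) {ρ : ℤ} (hρ : 2 * ρ ≤ n * (n - 1)) (h : Claim n T 0 ρ) :
    T ≤ val n true := by
  have h0 : ∀ j : ℕ, j < n → y0 n j = 0 := fun j hj =>
    y0_range (by positivity) (by exact_mod_cast hj)
  have h1 := two_sz (n := n) (y := y0 n)
  have h2 : 0 ≤ W n (y0 n) := sum_nonneg fun _ _ => le_max_right _ _
  have := h (y0 n) (n - 1 : ℕ) (ok_y0 hn) (by unfold dp; rw [h0 _ (by omega)]; omega)
    (by rw [sz_y0] at h1; linarith) _ (val_least hn true).1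
  rwa [sz_y0, zero_add] at this

end Pool.Agent.MP_d221f7_co
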