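import Pool.Agent.MP_d221f7_co.E1

/-! The strategy of Min, first part: a rectangle that keeps the two remaining regions balanced. -/

set_option autoImplicit false

namespace Pool.Agent.MP_d221f7_co

open Finset

variable {n a q : ℕ} {y z w : ℤ → ℤ} {T : ℤ}

/-- Min, to move, can end the game when at most `T` moves have been made. -/
def Win (n : ℕ) (T : ℤ) (y : ℤ → ℤ) : Prop := ∃ k : ℕ, sz n y + k ≤ T ∧ F n k false y

theorem winStep (hn : 0 < n) (hy : Ok n y) (hz : Ok n z) {r : ℕ} (h : df n z y ≤ r)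
    (hT : sz n y + 2 * r ≤ T)
    (H : ∀ w, Ok n w → y ≤ w → z ≤ w → sz n w = sz n y + 2 * r → Win n T w) : Win n T y := by
  refine ⟨(T - sz n y - 2 * r).toNat + 2 * r, by omega, fillMin hn hz _ r y hy h ?_⟩
  intro w hw h1 h2 h3
  obtain ⟨k, h4, h5⟩ := H w hw h1 h2 h3
  exact h5.mono (by omega)

theorem win_fin (h : Fin' n y) (hT : sz n y ≤ T) : Win n T y := ⟨0, by simpa using hT, h⟩

theorem cmp (A B : ℕ → ℤ) (a l : ℕ) (c : ℤ) (h : a + l ≤ n) (h1 : ∀ i, i < n → A i ≤ B i)
    (h2 : ∀ i, i < n → a ≤ i → i < a + l → A i + c ≤ B i) :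
    ∑ i ∈ range n, A i + l * c ≤ ∑ i ∈ range n, B i := by
  have h3 : ∑ i ∈ range n, (if i ∈ Ico a (a + l) then c else 0) = l * c := by
    rw [← sum_filter, filter_mem_eq_inter, inter_eq_right.2 fun i hi => mem_range.2 (by
      have := (mem_Ico.1 hi).2; omega)]
    simp
  rw [← h3, ← sum_add_distrib]
  refine sum_le_sum fun i hi => ?_
  have := h1 i (mem_range.1 hi)
  have := h2 i (mem_range.1 hi)
  simp only [mem_Ico]
  split_ifs <;> omega

theorem sum_cut (g : ℕ → ℤ) (h : a ≤ n) :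
    ∑ i ∈ range a, g i = ∑ i ∈ range n, if i < a then g i else 0 := by
  rw [← sum_filter]
  congr 1
  ext i
  simp only [mem_filter, mem_range]; omega

/-- depths, read from the last column -/
def fr (n : ℕ) (y : ℤ → ℤ) (i : ℕ) : ℤ := dp n y (n - 1 - i)

/-- depths above the height `q` -/
def f1 (n q : ℕ) (y : ℤ → ℤ) (i : ℕ) : ℤ := min (fr n y i) (i - q)

def U1 (n q : ℕ) (y : ℤ → ℤ) : ℤ := ar (f1 n q y) n

def U2 (n a : ℕ) (y : ℤ → ℤ) : ℤ := ar (fr n y) a

theorem U1_eq : U1 n q y = ∑ i ∈ range n, max (min (fr n y i) (i - q)) 0 := rfl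

theorem U2_eq (h : a ≤ n) : U2 n a y = ∑ i ∈ range n, if i < a then max (fr n y i) 0 else 0 :=
  sum_cut _ h

/-- the rectangle with `n - a` columns and `q` rows is filled -/
structure Inv (n a q : ℕ) (y : ℤ → ℤ) : Prop where
  ok : Ok n y
  pos : fr n y 0 ≤ 0
  rect : fr n y a ≤ a - q
  qa : q < a
  an : a ≤ n

theorem fr_eq (i : ℕ) : fr n y i = i - y (n - 1 - i) := by unfold fr dp; ring

theorem fr_le (hy : Ok n y) {i k : ℕ} (h : i ≤ k) : fr n y k ≤ fr n y i + (k - i) :=
  dp_le hy _ (by exact_mod_cast h)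

theorem fr_n (hy : Ok n y) : fr n y n = fr n y 0 := by
  unfold fr; rw [← dp_per hy]; congr 1; push_cast; ring

theorem fr_anti (h : y ≤ w) (i : ℕ) : fr n w i ≤ fr n y i := dp_anti h _

theorem fr_s (hy : Ok n y) (i : ℕ) : fr n y (i + 1) ≤ fr n y i + 1 := dp_step hy _ i

theorem f1_s (hy : Ok n y) (i : ℕ) : f1 n q y (i + 1) ≤ f1 n q y i + 1 := by
  have := fr_s hy i; unfold f1; omega

theorem f1_0 : f1 n q y 0 ≤ 1 := by unfold f1; omega

theorem Inv.mono (h : Inv n a q y) (hw : Ok n w) (hle : y ≤ w) : Inv n a q w :=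
  ⟨hw, (fr_anti hle 0).trans h.pos, (fr_anti hle a).trans h.rect, h.qa, h.an⟩

theorem Inv.cut (h : Inv n a q y) {i : ℕ} (hi : a ≤ i) : fr n y i ≤ i - q := by
  have := fr_le h.ok hi; have := h.rect; omega

theorem Inv.le (h : Inv n a q y) (i : ℕ) : fr n y i ≤ i := by
  have := fr_le h.ok (Nat.zero_le i); have := h.pos; omega

theorem sz_fr (hy : Ok n y) (hw : Ok n w) :
    sz n w - sz n y = ∑ i ∈ range n, (fr n y i - fr n w i) := sz_rev hy hw _

theorem static {δ : ℕ} (h : Inv n a q y) (ha : a = q + δ + 1) (hF : ¬ Fin' n y) : ∃ x : ℤ, 1 ≤ x ∧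
    x + cnt (f1 n q y) 1 n + cnt (fr n y) 1 a ≤ n + δ ∧
    2 * sz n y + 2 * U1 n q y + 2 * U2 n a y ≤ n * (n - 1) + δ * (δ + 1) + x * (x - 1) := by
  have an := h.an
  have h1 := cap h.ok hF (n - 1)
  have h2 := two_sz (n := n) (y := y)
  rw [U_rev h.ok (n - 1)] at h2
  change 2 * W n y ≤ (n - cnt (fr n y) 1 n) * (n - cnt (fr n y) 1 n - 1) at h1
  change _ = _ - 2 * ar (fr n y) n + _ at h2
  refine ⟨n - cnt (fr n y) 1 n, ?_, ?_, ?_⟩
  · have := cmp (n := n) (fun i => if 1 ≤ fr n y i then 1 else 0) (fun _ => 1) 0 1 1 (by omega)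
      (fun i _ => by split_ifs <;> omega) (fun i _ _ hi => by
        obtain rfl : i = 0 := by omega
        have := h.pos
        split_ifs <;> omega)
    simp only [sum_const, card_range, nsmul_eq_mul] at this
    unfold cnt; omega
  · have h3 := cmp (n := n) (fun i => (if 1 ≤ f1 n q y i then 1 else 0) +
        (if i < a then (if 1 ≤ fr n y i then 1 else 0) else 0))
      (fun i => (if 1 ≤ fr n y i then 1 else 0) + if i ∈ Ico (q + 1) a then 1 else 0) 0 0 0
      (by omega) (fun i _ => by simp only [mem_Ico]; unfold f1; split_ifs <;> omega)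
      (fun i _ _ _ => by omega)
    rw [sum_add_distrib, sum_add_distrib, ← sum_cut _ an, ← sum_filter (p := fun i => i ∈ Ico _ _),
      filter_mem_eq_inter, inter_eq_right.2 fun i hi => mem_range.2 (by
        have := (mem_Ico.1 hi).2; omega)] at h3
    simp only [sum_const, Nat.card_Ico, nsmul_eq_mul] at h3
    unfold cnt; omega
  · have h3 : U1 n q y + U2 n a y ≤ ar (fr n y) n + ∑ i ∈ range a, max ((i : ℤ) - q) 0 := by
      rw [U1_eq, U2_eq an, sum_cut _ an]
      unfold ar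
      rw [← sum_add_distrib, ← sum_add_distrib]
      refine sum_le_sum fun i _ => ?_
      split_ifs <;> omega
    have h4 : ∑ i ∈ range a, max ((i : ℤ) - q) 0 = ∑ i ∈ range (δ + 1), ((0 : ℤ) + i) := by
      rw [ha, add_assoc, sum_range_add, sum_eq_zero fun i hi => by
        have := mem_range.1 hi; omega, zero_add]
      exact sum_congr rfl fun i _ => by omega
    have h5 := sum_lin 0 (δ + 1)
    push_cast at h5
    linarith

/-- both regions are about equally large -/
def Bal (n a q : ℕ) (y : ℤ → ℤ) : Prop :=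
  U1 n q y ≤ U2 n a y + 3 * n ∧ U2 n a y ≤ U1 n q y + 3 * n

theorem bal {δ : ℕ} (h : Inv n a q y) (ha : a = q + δ + 1) (hF : ¬ Fin' n y) (hb : Bal n a q y)
    {e : ℤ} (he : 6 * n + 90 < 20 * e)
    (h1 : e * (e + 1) ≤ 2 * U1 n q y ∨ e * (e + 1) ≤ 2 * U2 n a y) :
    1 ≤ n + δ - 2 * e + 9 ∧ 2 * sz n y + 2 * e * (e + 1) ≤ n * (n - 1) + 6 * n + δ * (δ + 1) +
      (n + δ - 2 * e + 9) * (n + δ - 2 * e + 9 - 1) := by
  obtain ⟨x, x1, x2, x3⟩ := static h ha hF
  have a1 := (up (f1_0 (n := n) (q := q) (y := y)) (f1_s h.ok) n).1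
  have a2 := (up (f := fr n y) (by have := h.pos; omega) (fr_s h.ok) a).1
  have a3 := cnt_nonneg (f1 n q y) 1 n
  have a4 := cnt_nonneg (fr n y) 1 a
  change 2 * U1 n q y ≤ _ at a1
  change 2 * U2 n a y ≤ _ at a2
  obtain ⟨b1, b2⟩ := hb
  have key : ∀ X Y g g' : ℤ, 0 ≤ g → 0 ≤ g' → 2 * X ≤ g * (g + 1) → 2 * Y ≤ g' * (g' + 1) →
      X ≤ Y + 3 * n → e * (e + 1) ≤ 2 * X → 2 * e - 9 ≤ g + g' := by
    intro X Y g g' c1 c2 c3 c4 c5 c6
    have d0 : (0 : ℤ) ≤ n := by positivity
    have d1 : e ≤ g := by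
      by_contra hc
      nlinarith [mul_nonneg c1 (show 0 ≤ e - 1 - g by omega)]
    have d2 : e - 9 ≤ g' := by
      by_contra hc
      nlinarith [mul_nonneg (show 0 ≤ e - 9 + g' by omega) (show 0 ≤ e - 10 - g' by omega)]
    omega
  have h2 : x ≤ n + δ - 2 * e + 9 ∧ 2 * e * (e + 1) ≤ 2 * U1 n q y + 2 * U2 n a y + 6 * n := by
    rcases h1 with h1 | h1
    · have := key _ _ _ _ a3 a4 a1 a2 b1 h1
      exact ⟨by omega, by linarith⟩
    · have := key _ _ _ _ a4 a3 a2 a1 b2 h1
      exact ⟨by omega, by linarith⟩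
  refine ⟨by omega, ?_⟩
  nlinarith [mul_nonneg (sub_nonneg.2 h2.1) (show 0 ≤ n + δ - 2 * e + 9 + x - 1 by omega)]

def P1 (n : ℕ) (T : ℤ) (δ : ℕ) (τ : ℤ) : Prop :=
  ∀ a q y, a = q + δ + 1 → Inv n a q y → Bal n a q y → sz n y ≤ τ → Win n T y

theorem p1_step (hn : 0 < n) {δ r0 : ℕ} {τ x0 e0 : ℤ} (hP : P1 n T δ (τ + 2 * r0))
    (hT : τ + 2 * r0 ≤ T) (he : e0 = r0 + 1 + (δ + 1)) (hx : x0 = n + (δ + 1) - 2 * e0 + 9)
    (c1 : 6 * n + 90 < 20 * e0) (c2 : x0 ≤ 0 ∨ (n : ℤ) * (n - 1) + 6 * n + (δ + 1) * (δ + 2) +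
      x0 * (x0 - 1) + 4 ≤ 2 * τ + 2 * e0 * (e0 + 1)) : P1 n T (δ + 1) τ := by
  intro a q y ha h hb hs
  have r00 : (0 : ℤ) ≤ r0 := by positivity
  by_cases hF : Fin' n y
  · exact win_fin hF (by linarith)
  have an := h.an
  have budget : ∀ r : ℕ, (0 < r → ((r : ℤ) + (δ + 1)) * (r + (δ + 1) + 1) ≤ 2 * U1 n q y ∨
      ((r : ℤ) + (δ + 1)) * (r + (δ + 1) + 1) ≤ 2 * U2 n a y) →
      sz n y + 2 * r ≤ τ + 2 * r0 := by
    intro r hr
    by_cases c : r ≤ r0
    · omega
    obtain ⟨b1, b2⟩ := bal h ha hF hb (e := r + (δ + 1)) (by omega) (hr (by omega))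
    have c3 := c2.resolve_left (by omega)
    obtain ⟨k, hk⟩ : ∃ k : ℤ, k = r - r0 - 1 := ⟨_, rfl⟩
    have k0 : 0 ≤ k := by omega
    have e1 : (r : ℤ) + (δ + 1) = e0 + k := by omega
    have e2 : (n : ℤ) + ((δ + 1 : ℕ) : ℤ) - 2 * (e0 + k) + 9 = x0 - 2 * k := by omega
    rw [e1, e2] at b1 b2
    push_cast at b2
    have e3 : (r : ℤ) = r0 + 1 + k := by omega
    nlinarith [mul_nonneg k0 (show 0 ≤ 2 * e0 + k - 1 by omega),
      mul_nonneg k0 (show 0 ≤ 2 * x0 - 2 * k - 1 by omega)]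
  obtain ⟨b1, b2⟩ := hb
  rcases le_total (U2 n a y) (U1 n q y) with c | c
  · obtain ⟨r, hr, r1, -, r3⟩ := rowfill hn h.ok (c := n - 1 - a) (H := q)
      (by have := h.rect; rw [fr_eq] at this; linarith)
    have r4 : ∀ i : ℕ, a ≤ i → i < a + r → fr n y i = i - q := fun i i1 i2 => by
      have := r1 (i - a) (by omega)
      rw [fr_eq, ← this, Nat.cast_sub i1]; congr 2; ring
    have r5 : a + r ≤ n := by
      by_contra hc
      have := r4 n an (by omega)
      have := fr_n h.ok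
      have := h.pos
      omega
    have hB := budget r fun r0 => Or.inl (low1 f1_0 (f1_s h.ok) (by omega) (i := a + r - 1)
      (by omega) (by have := r4 (a + r - 1) (by omega) (by omega); unfold f1; omega))
    refine winStep hn h.ok (ok_pr hn _ _) r3.le (by linarith) fun w hw w1 w2 w3 => ?_
    have w4 := le_of_pr hn w2
    have hI : Inv n a (q + 1) w := ⟨hw, (fr_anti w1 0).trans h.pos,
      by rw [fr_eq]; push_cast; linarith, by omega, an⟩
    have w5 := sz_fr h.ok hw
    have w6 := fr_anti (n := n) w1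
    have w7 := fun i => hI.cut (i := i)
    have s1 := cmp (n := n) (fun i => max (min (fr n w i) (i - (q + 1 : ℕ))) 0)
      (fun i => max (min (fr n y i) (i - q)) 0) a r 1 r5 (fun i _ => by have := w6 i; omega)
      (fun i _ i1 i2 => by have := r4 i i1 i2; omega)
    have s2 := cmp (n := n) (fun i => max (min (fr n y i) (i - q)) 0)
      (fun i => max (min (fr n w i) (i - (q + 1 : ℕ))) 0 + (fr n y i - fr n w i) + 1) 0 0 0
      (by omega) (fun i _ => by have := w6 i; omega) (fun i _ _ _ => by omega)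
    have s3 := cmp (n := n) (fun i => if i < a then max (fr n y i) 0 else 0)
      (fun i => (if i < a then max (fr n w i) 0 else 0) + (fr n y i - fr n w i)) a r 1 r5
      (fun i _ => by have := w6 i; split_ifs <;> omega)
      (fun i _ i1 i2 => by have := r4 i i1 i2; have := w7 i i1; split_ifs <;> omega)
    have s4 := cmp (n := n) (fun i => if i < a then max (fr n w i) 0 else 0)
      (fun i => if i < a then max (fr n y i) 0 else 0) 0 0 0 (by omega)
      (fun i _ => by have := w6 i; split_ifs <;> omega) (fun i _ _ _ => by omega)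
    simp only [sum_add_distrib, ← U1_eq, ← U2_eq an, ← w5, sum_const, card_range,
      nsmul_eq_mul] at s1 s2 s3 s4
    exact hP a (q + 1) w (by omega) hI ⟨by omega, by omega⟩ (by omega)
  · obtain ⟨a, rfl⟩ : ∃ b, a = b + 1 := ⟨q + δ + 1, by omega⟩
    have hd := colfill hn h.ok (c := n - 1 - a) (H := q) (by
      have := h.rect
      rw [fr_eq] at this
      rw [show (n : ℤ) - 1 - a - 1 = n - 1 - (a + 1 : ℕ) by push_cast; ring]; linarith)
    have e1 := fr_eq (n := n) (y := y) a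
    have e2 := h.le a
    obtain ⟨r, hr⟩ : ∃ r : ℕ, (r : ℤ) = max (q - y (n - 1 - a)) 0 :=
      ⟨(q - y (n - 1 - a)).toNat, by omega⟩
    have hB := budget r fun r0 => Or.inr (low1 (f := fr n y) (by have := h.pos; omega) (fr_s h.ok)
      (by omega) (i := a) (by omega) (by omega))
    refine winStep hn h.ok (ok_pr hn _ _) (hd.trans hr.symm).le (by linarith)
      fun w hw w1 w2 w3 => ?_
    have w4 := le_of_pr hn w2
    have hI : Inv n a q w := ⟨hw, (fr_anti w1 0).trans h.pos,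
      by rw [fr_eq]; linarith, by omega, by omega⟩
    have w5 := sz_fr h.ok hw
    have w6 := fr_anti (n := n) w1
    have w7 := hI.rect
    have s1 := cmp (n := n) (fun i => if i < a then max (fr n w i) 0 else 0)
      (fun i => if i < a + 1 then max (fr n y i) 0 else 0) a 1 r an
      (fun i _ => by have := w6 i; split_ifs <;> omega)
      (fun i _ i1 i2 => by
        obtain rfl : i = a := by omega
        split_ifs <;> omega)
    have s2 := cmp (n := n) (fun i => if i < a + 1 then max (fr n y i) 0 else 0)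
      (fun i => (if i < a then max (fr n w i) 0 else 0) + (fr n y i - fr n w i) +
        if i = a then (n : ℤ) else 0) 0 0 0 (by omega)
      (fun i _ => by have := w6 i; have := hI.le i; split_ifs <;> omega) (fun i _ _ _ => by omega)
    have s3 := cmp (n := n) (fun i => max (min (fr n y i) (i - q)) 0)
      (fun i => max (min (fr n w i) (i - q)) 0 + (fr n y i - fr n w i)) a 1 r an
      (fun i _ => by have := w6 i; omega)
      (fun i _ i1 i2 => by
        obtain rfl : i = a := by omega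
        have := w6 i
        omega)
    have s4 := cmp (n := n) (fun i => max (min (fr n w i) (i - q)) 0)
      (fun i => max (min (fr n y i) (i - q)) 0) 0 0 0 (by omega)
      (fun i _ => by have := w6 i; omega) (fun i _ _ _ => by omega)
    simp only [sum_add_distrib, ← U1_eq, ← U2_eq an, ← U2_eq hI.an, ← w5, sum_ite_eq', mem_range,
      if_pos (show a < n by omega)] at s1 s2 s3 s4
    exact hP a q w (by omega) hI ⟨by omega, by omega⟩ (by omega)

theorem val_le (hn : 0 < n) (h : P1 n T (n - 1) 0) : (val n false : ℤ) ≤ T := by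
  have h0 : ∀ i : ℕ, i < n → fr n (y0 n) i = i := fun i hi => by
    rw [fr_eq, y0_range (by omega) (by omega), sub_zero]
  have h1 : U1 n 0 (y0 n) = U2 n n (y0 n) := by
    unfold U1 U2 ar f1
    exact sum_congr rfl fun i hi => by rw [h0 i (mem_range.1 hi)]; simp
  obtain ⟨k, k1, k2⟩ := h n 0 (y0 n) (by omega) ⟨ok_y0 hn, by rw [h0 0 hn]; simp,
    by rw [fr_n (ok_y0 hn), h0 0 hn]; simp, hn, le_rfl⟩ ⟨by omega, by omega⟩ sz_y0.le
  have := (val_least hn false).2 k2
  rw [sz_y0] at k1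
  omega

end Pool.Agent.MP_d221f7_co
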