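import Pool.Agent.MP_d221f7_co.E2

/-! The recursion for the lower bound, run at one size. -/

set_option autoImplicit false

namespace Pool.Agent.MP_d221f7_co

/-- go down while `p` holds -/
def desc (p : ℕ → Bool) (fuel : ℕ) : ℕ → ℕ :=
  Nat.rec (fun k => k)
    (fun _ ih k => Nat.rec 0 (fun k' _ => cond (p k') (ih k') (k' + 1)) k) fuel

def okA (n s ρ k : ℕ) : Bool :=
  Nat.ble n (s + 1 + k) || frc (min (k + 1) (n - (s + 1 + (k + 1)))) fun l =>
    Nat.ble 2 l && Nat.ble (2 * (ρ + 2 * (k + 1) + s + 1) + l * l)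
      ((k + 1) * (k + 2) + 2 * l * (k + 1) + l)

def okC (V s ρ k0 k1 : ℕ) : Bool :=
  Nat.ble (V + 2 * (ρ + s + 2 * k1)) (s * (s + 1) + 4 * (k0 + 1) * (k0 + 2))

def okB (n V s ρ k0 k1 : ℕ) : Bool :=
  Nat.ble k1 k0 || (Nat.ble (s + 1 + 2 * (k0 + 1)) n && (frc (n - (s + 1 + 2 * (k0 + 1))) fun g =>
    Nat.ble (V + g) (s * (s + 1) + g * g)) && okC V s ρ k0 k1)

def okL (n V s ρ k0 k1 : ℕ) : Bool :=
  Nat.ble (s + 1) n && Nat.ble (s + 2 + (2 * k0 + s + 1)) ρ &&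
    okB n V s (ρ - (2 * k0 + s + 1)) k0 k1 && okA n s (ρ - (2 * k0 + s + 1)) k1

def lowStep (n V : ℕ) (ih : ℕ → ℕ → ℕ → ℕ → Bool) (s ρ kn ka : ℕ) : Bool :=
  cond (Nat.ble V (s * (s + 1))) (Nat.ble (s + 1) n)
    (frc (desc (fun k => okA n s (ρ - (2 * k + s + 1)) k) n (min kn (n - (s + 3)))) fun kn =>
     frc (desc (fun k => okC V s (ρ - (2 * k + s + 1)) k (kn + 1)) n ka) fun ka =>
     frc (s + 1) fun s' =>
     cond (Nat.blt ka kn && okL n V s ρ ka (kn + 1))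
      (frc (ρ - (2 * ka + s + 1)) fun ρ' => ih s' ρ' kn ka)
      (cond (okL n V s ρ kn kn) (frc (ρ - (2 * kn + s + 1)) fun ρ' => ih s' ρ' kn ka)
        (cond (okL n V s ρ n n) (frc (ρ - (2 * n + s + 1)) fun ρ' => ih s' ρ' n ka) false)))

def lowLoop (n V fuel : ℕ) : ℕ → ℕ → ℕ → ℕ → Bool :=
  Nat.rec (fun _ _ _ _ => false) (fun _ ih => lowStep n V ih) fuel

variable {n V : ℕ} {T : ℤ}

theorem okL_step (hn : 0 < n) (hT : 2 * T ≤ n * (n - 1) + (V : ℤ)) {s ρ k0 k1 : ℕ}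
    (h : okL n V s ρ k0 k1 = true) (hc : Claim n T (s + 1) (ρ - (2 * k0 + s + 1) : ℕ)) :
    Claim n T s ρ := by
  simp only [okL, okA, okB, okC, frc_eq, Bool.and_eq_true, Bool.or_eq_true, Nat.ble_eq] at h
  obtain ⟨⟨⟨h1, h2⟩, hB⟩, hA⟩ := h
  generalize hρ : ρ - (2 * k0 + s + 1) = ρ' at *
  refine claim_step hn (k0 := k0) (k1 := k1) (l := min (k1 + 1) (n - (s + 1 + (k1 + 1))))
    (g := n - (s + 1 + 2 * (k0 + 1))) hc hT h1 (by omega) (by omega) (hA.imp id fun a => ?_)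
    (hB.imp id fun a => ?_)
  · refine ⟨a.1, by omega, ?_⟩
    have := a.2
    generalize min (k1 + 1) (n - (s + 1 + (k1 + 1))) = l at *
    zify at this; linarith
  · obtain ⟨⟨a1, a2⟩, a3⟩ := a
    refine ⟨by omega, ?_, by zify at a3; linarith⟩
    generalize n - (s + 1 + 2 * (k0 + 1)) = g at *
    zify at a2; linarith

theorem lowLoop_sound (hn : 0 < n) (hT : 2 * T ≤ n * (n - 1) + (V : ℤ)) :
    ∀ fuel s ρ kn ka : ℕ, lowLoop n V fuel s ρ kn ka = true → Claim n T s ρ := by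
  intro fuel
  induction fuel with
  | zero => intro s ρ kn ka h; exact absurd h (by simp [lowLoop])
  | succ f ih =>
    intro s ρ kn ka h
    change lowStep n V (lowLoop n V f) s ρ kn ka = true at h
    simp only [lowStep, frc_eq, Bool.cond_eq_ite] at h
    split_ifs at h with c1 c2 c3 c4
    · exact claim_end hn hT (Nat.ble_eq ▸ h) (by have := Nat.ble_eq ▸ c1; exact_mod_cast this)
    · exact okL_step hn hT (Bool.and_eq_true _ _ ▸ c2).2 (ih _ _ _ _ h)
    · exact okL_step hn hT c3 (ih _ _ _ _ h)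
    · exact okL_step hn hT c4 (ih _ _ _ _ h)

theorem low_run : lowLoop 30000 175000000 30000 0 449985000 30000 30000 = true := by
  decide +kernel

theorem val_low_num : 537485000 ≤ val 30000 true := by
  have := val_ge (n := 30000) (T := 537485000) (by norm_num) (by norm_num)
    (lowLoop_sound (by norm_num) (by norm_num) _ _ _ _ _ low_run)
  exact_mod_cast this

end Pool.Agent.MP_d221f7_co
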