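import Pool.Agent.MP_d221f7_co.E3

/-! The strategy of Min, second part: waiting in balance, then filling by levels. -/

set_option autoImplicit false

namespace Pool.Agent.MP_d221f7_co

open Finset

variable {n q : ℕ} {y w : ℤ → ℤ} {T : ℤ}

theorem corner {f : ℕ → ℤ} {m : ℕ} (hm : f m ≤ 1) : ∀ k i0 : ℕ, i0 + k + 1 = m → 1 ≤ f i0 →
    ∃ i, i0 ≤ i ∧ i < m ∧ 1 ≤ f i ∧ f (i + 1) ≤ f i := by
  intro k
  induction k with
  | zero => exact fun i h1 h2 => ⟨i, le_rfl, by omega, h2, by rw [show i + 1 = m by omega]; omega⟩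
  | succ k ih =>
    intro i h1 h2
    by_cases c : f (i + 1) ≤ f i
    · exact ⟨i, le_rfl, by omega, h2, c⟩
    · obtain ⟨j, a1, a2⟩ := ih (i + 1) (by omega) (by omega)
      exact ⟨j, by omega, a2⟩

theorem ar_pos {f : ℕ → ℤ} {m : ℕ} (h : 0 < ar f m) : ∃ i, i < m ∧ 1 ≤ f i := by
  by_contra hc
  push Not at hc
  have : ar f m = 0 := sum_eq_zero fun i hi => by have := hc i (mem_range.1 hi); omega
  omega

theorem fin_of_fr (hn : 0 < n) (hy : Ok n y) (h : ∀ i, i < n → fr n y i ≤ 0) : Fin' n y := by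
  refine fin_top.mono (le_of_range hn ok_top hy fun j hj => ?_)
  have := h (n - 1 - j) (by omega)
  rw [fr_eq, show (n : ℤ) - 1 - (n - 1 - j : ℕ) = j by omega] at this
  unfold top; omega

def S2 (n : ℕ) (T τ : ℤ) : Prop :=
  ∀ q y, Inv n (q + 1) q y → Bal n (q + 1) q y → τ - 1 ≤ sz n y → sz n y ≤ τ → Win n T y

theorem pad (hn : 0 < n) {τ : ℤ} (hT : τ ≤ T) (H : S2 n T τ) : P1 n T 0 τ := by
  have key : ∀ (k q : ℕ) y, Inv n (q + 1) q y → Bal n (q + 1) q y → τ - 1 ≤ sz n y + 2 * k →
      sz n y ≤ τ → Win n T y := by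
    intro k
    induction k with
    | zero => exact fun q y h hb h1 h2 => H q y h hb (by simpa using h1) h2
    | succ k ih =>
      intro q y h hb h1 h2
      by_cases c : τ - 1 ≤ sz n y
      · exact H q y h hb c h2
      by_cases hF : Fin' n y
      · exact win_fin hF (by linarith)
      have an := h.an
      have move : ∀ i, i < n → fr n y (i + 1) ≤ fr n y i →
          (∀ w, Inv n (q + 1) q w → y ≤ w → fr n w i + 1 ≤ fr n y i → sz n w - sz n y = 2 →
            Bal n (q + 1) q w) → Win n T y := by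
        intro i hi h3 h4
        have hl : Legal (n - 1 - i) y := by
          rw [fr_eq, fr_eq] at h3
          unfold Legal
          rw [show (n : ℤ) - 1 - i - 1 = n - 1 - (i + 1 : ℕ) by push_cast; ring]
          push_cast at h3 ⊢; linarith
        refine winStep hn h.ok (h.ok.step hl) (r := 1)
          (by rw [df_of_le n (le_step _ y), sz_step hn]; simp) (by omega) fun w hw w1 w2 w3 => ?_
        refine ih q w (h.mono hw w1) (h4 w (h.mono hw w1) w1 ?_ (by omega)) (by omega) (by omega)
        have := w2 (n - 1 - i)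
        unfold step at this
        rw [if_pos (by simp)] at this
        rw [fr_eq, fr_eq]; linarith
      obtain ⟨b1, b2⟩ := hb
      have hpos : 0 < U1 n q y ∨ 0 < U2 n (q + 1) y := by
        by_contra hc
        refine hF (fin_of_fr hn h.ok fun i hi => ?_)
        by_contra hd
        by_cases c : i < q + 1
        · have := low1 (f := fr n y) (by have := h.pos; omega) (fr_s h.ok) le_rfl c (by omega)
          unfold U2 at hc; omega
        · have := low1 (f1_0 (q := q)) (f1_s h.ok) le_rfl hi (by unfold f1; omega)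
          unfold U1 at hc; omega
      have mono : ∀ w, y ≤ w → U1 n q w ≤ U1 n q y ∧ U2 n (q + 1) w ≤ U2 n (q + 1) y :=
        fun w w1 => by
          unfold U1 U2 ar f1
          exact ⟨sum_le_sum fun i _ => by have := fr_anti (n := n) w1 i; omega,
            sum_le_sum fun i _ => by have := fr_anti (n := n) w1 i; omega⟩
      rcases le_total (U2 n (q + 1) y) (U1 n q y) with c | c
      · obtain ⟨i0, i1, i2⟩ := ar_pos (f := f1 n q y) (m := n) (by unfold U1 at *; omega)
        obtain ⟨i, j1, j2, j3, j4⟩ := corner (f := fr n y) (m := n)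
          (by rw [fr_n h.ok]; have := h.pos; omega) (n - 1 - i0) i0 (by omega)
          (by unfold f1 at i2; omega)
        have j5 : q + 1 ≤ i := by unfold f1 at i2; omega
        refine move i j2 j4 fun w hw w1 w2 w3 => ?_
        have w5 := sz_fr h.ok hw.ok
        have w6 := fr_anti (n := n) w1
        have w7 := h.cut j5
        have s1 := cmp (n := n) (fun i => max (min (fr n w i) (i - q)) 0)
          (fun i => max (min (fr n y i) (i - q)) 0) i 1 1 j2 (fun i _ => by have := w6 i; omega)
          (fun i' _ _ _ => by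
            obtain rfl : i' = i := by omega
            omega)
        have s2 := cmp (n := n) (fun i => max (min (fr n y i) (i - q)) 0)
          (fun i => max (min (fr n w i) (i - q)) 0 + (fr n y i - fr n w i)) 0 0 0 (by omega)
          (fun i _ => by have := w6 i; omega) (fun i _ _ _ => by omega)
        have s3 := cmp (n := n) (fun i => if i < q + 1 then max (fr n y i) 0 else 0)
          (fun i => (if i < q + 1 then max (fr n w i) 0 else 0) + (fr n y i - fr n w i)) i 1 1 j2
          (fun i _ => by have := w6 i; split_ifs <;> omega)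
          (fun i' _ _ _ => by
            obtain rfl : i' = i := by omega
            split_ifs <;> omega)
        have s4 := mono w w1
        simp only [sum_add_distrib, ← U1_eq, ← U2_eq an, ← w5] at s1 s2 s3
        exact ⟨by omega, by omega⟩
      · obtain ⟨i0, i1, i2⟩ := ar_pos (f := fr n y) (m := q + 1) (by unfold U2 at *; omega)
        obtain ⟨i, j1, j2, j3, j4⟩ := corner (f := fr n y) (m := q + 1)
          (by have := h.rect; omega) (q - i0) i0 (by omega) i2
        refine move i (by omega) j4 fun w hw w1 w2 w3 => ?_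
        have w5 := sz_fr h.ok hw.ok
        have w6 := fr_anti (n := n) w1
        have s1 := cmp (n := n) (fun i => if i < q + 1 then max (fr n w i) 0 else 0)
          (fun i => if i < q + 1 then max (fr n y i) 0 else 0) i 1 1 (by omega)
          (fun i _ => by have := w6 i; split_ifs <;> omega)
          (fun i' _ _ _ => by
            obtain rfl : i' = i := by omega
            split_ifs <;> omega)
        have s2 := cmp (n := n) (fun i => if i < q + 1 then max (fr n y i) 0 else 0)
          (fun i => (if i < q + 1 then max (fr n w i) 0 else 0) + (fr n y i - fr n w i)) 0 0 0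
          (by omega) (fun i _ => by have := w6 i; split_ifs <;> omega) (fun i _ _ _ => by omega)
        have s3 := cmp (n := n) (fun i => max (min (fr n y i) (i - q)) 0)
          (fun i => max (min (fr n w i) (i - q)) 0 + (fr n y i - fr n w i)) i 1 1 (by omega)
          (fun i _ => by have := w6 i; omega)
          (fun i' _ _ _ => by
            obtain rfl : i' = i := by omega
            omega)
        have s4 := mono w w1
        simp only [sum_add_distrib, ← U1_eq, ← U2_eq an, ← w5] at s1 s2 s3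
        exact ⟨by omega, by omega⟩
  intro a q y ha h hb hs
  obtain rfl : a = q + 1 := ha
  exact key (τ - sz n y).toNat q y h hb (by omega) hs

def P2 (n : ℕ) (T lo m t σ : ℤ) : Prop :=
  ∀ (q : ℕ) (y : ℤ → ℤ) (A B : ℤ), Inv n (q + 1) q y → (∀ i, i < n → fr n y i ≤ t) →
    2 * (U1 n q y + A) ≤ m * (m + 1) → 2 * (U2 n (q + 1) y + B) ≤ m * (m + 1) →
    2 * A ≤ (m - t) * (m - t + 1) → 2 * B ≤ (m - t) * (m - t + 1) →
    lo + 2 * (A + B) ≤ sz n y → sz n y ≤ lo + 1 + 2 * (A + B) → A + B ≤ σ → Win n T y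

theorem p2_start {m τ : ℤ} (hT : τ ≤ T) (c1 : 6 * n + 90 < 20 * m)
    (c2 : (n : ℤ) * (n - 1) + 6 * n + (n - 2 * m + 9) * (n - 2 * m + 9 - 1) <
      2 * (τ - 1) + 2 * m * (m + 1)) (H : P2 n T (τ - 1) m m 0) : S2 n T τ := by
  intro q y h hb h1 h2
  by_cases hF : Fin' n y
  · exact win_fin hF (by linarith)
  have key : ¬ (m * (m + 1) ≤ 2 * U1 n q y ∨ m * (m + 1) ≤ 2 * U2 n (q + 1) y) := fun hc => by
    have := (bal (δ := 0) h rfl hF hb c1 hc).2
    push_cast at this
    linarith
  refine H q y 0 0 h (fun i hi => ?_) (by omega) (by omega) (by simp) (by simp) (by omega)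
    (by omega) (by simp)
  by_contra hc
  refine key ?_
  by_cases c : i < q + 1
  · exact Or.inr (low1 (f := fr n y) (by have := h.pos; omega) (fr_s h.ok) (by omega) c (by omega))
  · have := h.cut (not_lt.1 c)
    exact Or.inl (low1 f1_0 (f1_s h.ok) (by omega) hi (by unfold f1; omega))

theorem p2_end (hn : 0 < n) {lo m σ : ℤ} (hT : lo + 1 + 2 * σ + 2 * n ≤ T) : P2 n T lo m 1 σ := by
  intro q y A B h h1 _ _ _ _ _ h2 h3
  refine winStep hn h.ok ok_top (r := n) ?_ (by linarith)
    fun w _ _ w2 w3 => win_fin (fin_top.mono w2) (by linarith)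
  rw [df_rev h.ok ok_top (n - 1)]
  refine (sum_le_sum (g := fun _ => (1 : ℤ)) fun i hi => ?_).trans (by simp)
  have := h1 i (mem_range.1 hi)
  unfold fr dp at this
  unfold dp top; omega

theorem spent {m u A X a : ℤ} (hu : 1 ≤ u) (um : u ≤ m) (h1 : 2 * (X + A) ≤ m * (m + 1))
    (h2 : 2 * A ≤ (m - u) * (m - u + 1)) (h3 : 0 < a → 2 * u * a + (u - 1) * u ≤ 2 * X) :
    2 * (A + a) ≤ (m - (u - 1)) * (m - (u - 1) + 1) := by
  by_cases c : a ≤ m - u + 1
  · linarith
  have := h3 (by omega)
  nlinarith [mul_nonneg (show 0 ≤ u - 1 by omega) (show 0 ≤ a - (m - u + 1) by omega)]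

theorem p2_step (hn : 0 < n) {lo m u σ c0 x1 x2 : ℤ} (hP : P2 n T lo m (u - 1) (σ + c0))
    (hT : lo + 1 + 2 * (σ + c0) ≤ T) (hu : 2 ≤ u) (um : u ≤ m) (h0 : 0 ≤ c0)
    (e1 : x1 = n - (c0 + 1) - (u - 1)) (e2 : x2 = n - (c0 + 1) - 2 * (u - 1))
    (k2 : x2 ≤ 0 ∨ (n : ℤ) * (n - 1) + x2 * (x2 - 1) + 4 * (c0 + 1) <
      2 * lo + 4 * (σ + c0 + 1) + 2 * u * (c0 + 1) + 2 * u * (u - 1))
    (k1 : (x1 ≤ 0 ∨ (n : ℤ) * (n - 1) + x1 * (x1 - 1) + 4 * (c0 + 1) <
      2 * lo + 4 * (σ + c0 + 1) + 2 * u * (c0 + 1) + u * (u - 1)) ∨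
      m * (m + 1) + (m - u) * (m - u + 1) <
        2 * (σ + c0 + 1) + 2 * (u - 1) * (c0 + 1) + u * (u - 1)) : P2 n T lo m u σ := by
  intro q y A B h hd a1 a2 a3 a4 a5 a6 a7
  by_cases hF : Fin' n y
  · exact win_fin hF (by linarith)
  have an := h.an
  obtain ⟨x, s1, s2, s3⟩ := static (δ := 0) h rfl hF
  have l1 := low (f1_0 (n := n) (q := q) (y := y)) (f1_s h.ok) (t := u) (by omega) (m := n)
  have l2 := low (f := fr n y) (by have := h.pos; omega) (fr_s h.ok) (t := u) (by omega)
    (m := q + 1)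
  have n1 := cnt_nonneg (f1 n q y) u n
  have n2 := cnt_nonneg (fr n y) u (q + 1)
  have n3 := cnt_nonneg (f1 n q y) 1 n
  have n4 := cnt_nonneg (fr n y) 1 (q + 1)
  have n5 : 0 ≤ U1 n q y := ar_nonneg _ _
  have n6 : 0 ≤ U2 n (q + 1) y := ar_nonneg _ _
  change _ → _ ≤ 2 * U1 n q y ∧ _ at l1
  change _ → _ ≤ 2 * U2 n (q + 1) y ∧ _ at l2
  have ea : cnt (f1 n q y) u n = ∑ i ∈ range n, if u ≤ min (fr n y i) (i - q) then 1 else 0 := rfl
  have eb : cnt (fr n y) u (q + 1) =
      ∑ i ∈ range n, if i < q + 1 then (if u ≤ fr n y i then 1 else 0) else 0 := sum_cut _ an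
  generalize cnt (f1 n q y) u n = a at *
  generalize cnt (fr n y) u (q + 1) = b at *
  simp only [Nat.cast_zero, add_zero, zero_mul] at s2 s3
  have budget : A + B + (a + b) ≤ σ + c0 := by
    by_contra hc
    obtain ⟨k, hk⟩ : ∃ k, a + b = c0 + 1 + k := ⟨a + b - (c0 + 1), by ring⟩
    have k0 : 0 ≤ k := by omega
    have one : ∀ X Y C D c : ℤ, c = a + b → 0 ≤ Y → X + Y = U1 n q y + U2 n (q + 1) y →
        C + D = A + B → 2 * (X + C) ≤ m * (m + 1) → 2 * D ≤ (m - u) * (m - u + 1) →
        2 * u * c + (u - 1) * u ≤ 2 * X → x + c + (u - 1) ≤ n → False := by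
      intro X Y C D c d1 d2 d3 d4 d5 d6 d7 d8
      rcases k1 with k1 | k1
      · have k3 := k1.resolve_left (by omega)
        nlinarith [mul_nonneg k0 (show 0 ≤ u - 2 by omega),
          mul_nonneg (show 0 ≤ x1 - x by omega) (show 0 ≤ x1 + x - 1 by omega)]
      · nlinarith [mul_nonneg k0 (show 0 ≤ u - 1 by omega)]
    by_cases ca : a = 0
    · have := l2 (by omega)
      exact one _ _ B A b (by omega) n5 (add_comm _ _) (add_comm _ _) a2 a3 this.1 (by omega)
    by_cases cb : b = 0
    · have := l1 (by omega)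
      exact one _ _ A B a (by omega) n6 rfl rfl a1 a4 this.1 (by omega)
    have l1 := l1 (by omega)
    have l2 := l2 (by omega)
    have k3 := k2.resolve_left (by omega)
    nlinarith [mul_nonneg k0 (show 0 ≤ u - 2 by omega), l1.1, l2.1,
      mul_nonneg (show 0 ≤ x2 - x by omega) (show 0 ≤ x2 + x - 1 by omega)]
  have hz := (ok_top (n := n)).add (1 - u)
  have hzd : ∀ j, dp n (fun j => top n j + (1 - u)) j = u - 1 := fun j => by unfold dp top; ring
  refine winStep hn h.ok hz (r := (a + b).toNat) ?_ (by omega) fun w hw w1 w2 w3 => ?_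
  · rw [df_rev h.ok hz (n - 1), Int.toNat_of_nonneg (by omega), ea, eb, ← sum_add_distrib]
    refine sum_le_sum fun i hi => ?_
    have := hd i (mem_range.1 hi)
    have := h.cut (i := i)
    rw [hzd]
    change max (fr n y i - _) 0 ≤ _
    split_ifs <;> omega
  have w4 : ∀ i, fr n w i ≤ u - 1 := fun i => (dp_anti w2 _).trans (hzd _).le
  have w6 := fr_anti (n := n) w1
  have t1 : U1 n q w + a ≤ U1 n q y := by
    rw [U1_eq, U1_eq, ea, ← sum_add_distrib]
    exact sum_le_sum fun i _ => by have := w4 i; have := w6 i; split_ifs <;> omega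
  have t2 : U2 n (q + 1) w + b ≤ U2 n (q + 1) y := by
    rw [U2_eq an, U2_eq an, eb, ← sum_add_distrib]
    exact sum_le_sum fun i _ => by have := w4 i; have := w6 i; split_ifs <;> omega
  exact hP q w (A + a) (B + b) (h.mono hw w1) (fun i _ => w4 i) (by linarith) (by linarith)
    (spent (by omega) um a1 a3 fun h => (l1 h).1) (spent (by omega) um a2 a4 fun h => (l2 h).1)
    (by omega) (by omega) (by omega)

end Pool.Agent.MP_d221f7_co
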