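import Pool.Agent.MP_d221f7_co.E5

/-! The recursion for the upper bound, run at one size. -/

set_option autoImplicit false

namespace Pool.Agent.MP_d221f7_co

/-- go up until `p` holds, then continue with `g` -/
def asc (p g : ℕ → Bool) (fuel : ℕ) : ℕ → Bool :=
  Nat.rec (fun _ => false) (fun _ ih k => cond (p k) (g k) (frc (k + 1) ih)) fuel

theorem asc_sound {p g : ℕ → Bool} : ∀ fuel k : ℕ, asc p g fuel k = true →
    ∃ j, p j = true ∧ g j = true := by
  intro fuel
  induction fuel with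
  | zero => intro k h; exact absurd h (by simp [asc])
  | succ f ih =>
    intro k h
    change cond (p k) (g k) (frc (k + 1) (asc p g f)) = true at h
    rw [frc_eq, Bool.cond_eq_ite] at h
    split_ifs at h with c
    · exact ⟨k, c, h⟩
    · exact ih _ h

def ok1 (n d τ r : ℕ) : Bool :=
  frc (r + 1 + d) fun e => Nat.blt (6 * n + 90) (20 * e) && frc (n + d + 9 - 2 * e) fun x =>
    Nat.ble x 0 || Nat.ble (n * n + 5 * n + d * (d + 1) + x * x + 4) (2 * τ + 2 * e * (e + 1) + x)

def okX (n τ v σ c x s : ℕ) : Bool :=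
  Nat.ble x 0 || Nat.blt (n * n + x * x + 2) (2 * τ + n + x + 4 * σ + 2 * (v + 1) * c + s)

def ok2 (n τ m v σ c : ℕ) : Bool :=
  frc (n - (c + 1 + 2 * v)) (fun x => okX n τ v σ (c + 1) x (2 * (v + 1) * v)) &&
    (frc (n - (c + 1 + v)) (fun x => okX n τ v σ (c + 1) x ((v + 1) * v)) ||
      frc (m - (v + 1)) fun j =>
        Nat.blt (m * (m + 1) + j * (j + 1)) (2 * (σ + c + 1) + 2 * v * (c + 1) + (v + 1) * v))

def step2 (n τ m v : ℕ) (ih : ℕ → ℕ → Bool) (σ c : ℕ) : Bool :=
  frc (v + 1) fun v' => frc (c - 1) (asc (ok2 n τ m v' σ) (fun c' => frc (σ + c') fun σ' =>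
    ih σ' c') 20)

def loop2 (n T τ m v : ℕ) : ℕ → ℕ → Bool :=
  Nat.rec (fun σ _ => Nat.ble (τ + 2 * σ + 2 * n) T) (fun v ih => step2 n τ m v ih) v

def mid (n T m τ : ℕ) : Bool :=
  Nat.blt (6 * n + 90) (20 * m) && Nat.ble (2 * m) (n + 9) && (frc (n + 9 - 2 * m) fun x =>
    Nat.blt (n * n + 5 * n + x * x + 2) (2 * τ + 2 * m * (m + 1) + x)) && loop2 n T τ m (m - 1) 0 0

def step1 (n d : ℕ) (ih : ℕ → ℕ → Bool) (τ r : ℕ) : Bool :=
  frc (d + 1) fun d' => frc (r - 1) (asc (ok1 n d' τ) (fun r' => frc (τ + 2 * r') fun τ' =>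
    ih τ' r') 20)

def loop1 (n T m d : ℕ) : ℕ → ℕ → Bool :=
  Nat.rec (fun τ _ => mid n T m τ) (fun d ih => step1 n d ih) d

variable {n T m τ : ℕ}

theorem loop2_sound (hn : 0 < n) : ∀ v σ c : ℕ, v + 1 ≤ m → loop2 n T τ m v σ c = true →
    P2 n T (τ - 1) m (v + 1) σ ∧ τ + 2 * σ ≤ T := by
  intro v
  induction v with
  | zero =>
    intro σ c _ h
    have h : τ + 2 * σ + 2 * n ≤ T := Nat.ble_eq ▸ h
    exact ⟨by simpa using p2_end hn (by omega), by omega⟩
  | succ v ih =>
    intro σ c hv h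
    change step2 n τ m v (loop2 n T τ m v) σ c = true at h
    simp only [step2, frc_eq] at h
    obtain ⟨j, h1, h2⟩ := asc_sound _ _ h
    obtain ⟨i1, i2⟩ := ih _ _ (by omega) h2
    refine ⟨?_, by omega⟩
    simp only [ok2, okX, frc_eq, Bool.and_eq_true, Bool.or_eq_true, Nat.ble_eq, Nat.blt_eq] at h1
    obtain ⟨k2, k1⟩ := h1
    refine p2_step hn (c0 := j) (by simpa using i1) (by omega) (by omega) (by omega) (by omega)
      rfl rfl ?_ (k1.imp (fun k => ?_) fun k => ?_)
    · by_cases c : j + 1 + 2 * (v + 1) ≤ n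
      · refine k2.imp (by omega) fun k => ?_
        zify [c] at k
        push_cast; linarith
      · left; omega
    · by_cases c : j + 1 + (v + 1) ≤ n
      · refine k.imp (by omega) fun k => ?_
        zify [c] at k
        push_cast; linarith
      · left; omega
    · zify [hv] at k
      push_cast; linarith

theorem mid_sound (hn : 0 < n) (h : mid n T m τ = true) : P1 n T 0 τ ∧ τ ≤ T := by
  simp only [mid, frc_eq, Bool.and_eq_true, Nat.ble_eq, Nat.blt_eq] at h
  obtain ⟨⟨⟨h1, h2⟩, h3⟩, h4⟩ := h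
  obtain ⟨i1, i2⟩ := loop2_sound hn _ _ _ (by omega) h4
  refine ⟨pad hn (by omega) (p2_start (m := m) (by omega) (by omega) ?_ ?_), by omega⟩
  · zify [h2] at h3
    linarith
  · rwa [show ((m - 1 : ℕ) : ℤ) + 1 = m by omega] at i1

theorem loop1_sound (hn : 0 < n) : ∀ d τ r : ℕ, loop1 n T m d τ r = true →
    P1 n T d τ ∧ τ ≤ T := by
  intro d
  induction d with
  | zero => exact fun τ r h => mid_sound hn h
  | succ d ih =>
    intro τ r h
    change step1 n d (loop1 n T m d) τ r = true at h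
    simp only [step1, frc_eq] at h
    obtain ⟨j, h1, h2⟩ := asc_sound _ _ h
    obtain ⟨i1, i2⟩ := ih _ _ h2
    refine ⟨?_, by omega⟩
    simp only [ok1, frc_eq, Bool.and_eq_true, Bool.or_eq_true, Nat.ble_eq, Nat.blt_eq] at h1
    obtain ⟨k1, k2⟩ := h1
    refine p1_step hn (r0 := j) (by simpa using i1) (by omega) rfl rfl (by omega) ?_
    by_cases c : 2 * (j + 1 + (d + 1)) ≤ n + (d + 1) + 9
    · refine k2.imp (by omega) fun k => ?_
      zify [c] at k
      linarith
    · left; omega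

theorem up_run : loop1 30000 559826588 10826 29999 0 0 = true := by
  decide +kernel

theorem val_up_num : val 30000 false ≤ 559826588 := by
  have := val_le (n := 30000) (by norm_num) (loop1_sound (by norm_num) _ _ _ up_run).1
  exact_mod_cast this

end Pool.Agent.MP_d221f7_co
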